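import Mathlib

set_option autoImplicit false

namespace Pool.Agent.P.MP_987dc0_co

/-- `P` with rank function `ρ` is an `r`-differential poset (local finiteness is carried
separately as an instance): the minimum has rank `0`, covers raise the rank by one, the ranks are
finite, an element covering `k` elements is covered by exactly `k + r` elements, and two distinct
elements have as many common lower covers as common upper covers. -/
structure IsDiff (r : ℕ) (P : Type) [PartialOrder P] [OrderBot P] (ρ : P → ℕ) : Prop where
  bot : ρ ⊥ = 0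
  cov : ∀ x y : P, x ⋖ y → ρ y = ρ x + 1
  fin : ∀ n : ℕ, {x : P | ρ x = n}.Finite
  deg : ∀ x : P, {z : P | x ⋖ z}.Finite ∧
    {z : P | x ⋖ z}.ncard = {z : P | z ⋖ x}.ncard + r
  com : ∀ x y : P, x ≠ y →
    {z : P | z ⋖ x ∧ z ⋖ y}.ncard = {z : P | x ⋖ z ∧ y ⋖ z}.ncard

/-- The set of the sizes of rank `n` over all (locally finite) `r`-differential posets. -/
def sizes (r n : ℕ) : Set ℕ :=
  {k | ∃ (P : Type) (_ : PartialOrder P) (_ : OrderBot P) (_ : LocallyFiniteOrder P) (ρ : P → ℕ),
    IsDiff r P ρ ∧ {x : P | ρ x = n}.ncard = k}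

/-- The size of rank `n` of the `r`-th power of Young's lattice: the number of `r`-tuples of
partitions of total size `n`. -/
def Y (r n : ℕ) : ℕ :=
  ∑ f ∈ Finset.Nat.antidiagonalTuple r n, ∏ i, Fintype.card (Nat.Partition (f i))

end Pool.Agent.P.MP_987dc0_co
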