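import Pool.Agent.P.MP_987dc0_co.Local

set_option autoImplicit false

namespace Pool.Agent.P.MP_987dc0_co

open Finset Filter Topology

/-- The dual variables `(a, μ)`. -/
noncomputable def am (r : ℝ) : ℕ → ℕ → ℝ × ℝ
  | 0, j => (1 / j, 0)
  | m + 1, j => ((am r m j).1 + r / j * ((am r m (j + 1)).1 + (am r m (j + 1)).2),
      (am r m j).1 - ((am r m (j + 1)).1 + (am r m (j + 1)).2))

/-- The first dual variable. -/
noncomputable def da (r : ℝ) (m j : ℕ) : ℝ := (am r m j).1

/-- The second dual variable. -/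
noncomputable def dm (r : ℝ) (m j : ℕ) : ℝ := (am r m j).2

lemma da_zero (r : ℝ) (j : ℕ) : da r 0 j = 1 / j := rfl

lemma dm_zero (r : ℝ) (j : ℕ) : dm r 0 j = 0 := rfl

lemma da_succ (r : ℝ) (m j : ℕ) :
    da r (m + 1) j = da r m j + r / j * (da r m (j + 1) + dm r m (j + 1)) := rfl

lemma dm_succ (r : ℝ) (m j : ℕ) :
    dm r (m + 1) j = da r m j - (da r m (j + 1) + dm r m (j + 1)) := rfl

/-- The leading coefficient. -/
noncomputable def al (m j : ℕ) : ℝ := ∏ i ∈ range (m + 1), ((j : ℝ) + i)⁻¹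

lemma al_zero (j : ℕ) : al 0 j = 1 / j := by simp [al]

lemma al_succ (m j : ℕ) : al (m + 1) j = 1 / j * al m (j + 1) := by
  unfold al
  rw [Finset.prod_range_succ', mul_comm]
  push_cast
  simp only [add_zero, one_div]
  congr 1
  refine Finset.prod_congr rfl fun i _ => ?_
  ring

lemma al_succ' (m j : ℕ) : al (m + 1) j = al m j * ((j : ℝ) + (m + 1))⁻¹ := by
  unfold al
  rw [Finset.prod_range_succ]
  push_cast
  rfl

lemma al_pos (m j : ℕ) (hj : 0 < j) : 0 < al m j := by
  unfold al
  refine Finset.prod_pos fun i _ => ?_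
  have : (0 : ℝ) < j := by exact_mod_cast hj
  positivity

lemma al_diff (m j : ℕ) (hj : 0 < j) : al m j - al m (j + 1) = (m + 1) * al (m + 1) j := by
  have hj' : (0 : ℝ) < j := by exact_mod_cast hj
  have h1 := al_succ m j
  have h2 := al_succ' m j
  have h3 : al m (j + 1) = j * al (m + 1) j := by
    rw [h1]; field_simp
  have h4 : al m j = ((j : ℝ) + (m + 1)) * al (m + 1) j := by
    rw [h2]; field_simp
  rw [h3, h4]
  ring

lemma al_anti (m j : ℕ) (hj : 0 < j) : al m (j + 1) < al m j := by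
  have := al_diff m j hj
  have h2 := al_pos (m + 1) j hj
  have : (0 : ℝ) < (m + 1) * al (m + 1) j := by positivity
  linarith

lemma al_anti' (m j k : ℕ) (hj : 0 < j) (hjk : j < k) : al m k < al m j := by
  induction k, hjk using Nat.le_induction with
  | base => exact al_anti m j hj
  | succ k hk ih => exact (al_anti m k (by omega)).trans ih

lemma al_convex (m j k : ℕ) (hj : 0 < j) (hk : 0 < k) (h1 : k ≠ j) (h2 : k ≠ j + 1) :
    al m j - ((k : ℝ) - j) * (al m j - al m (j + 1)) < al m k := by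
  have hm : (0 : ℝ) < m + 1 := by positivity
  rcases lt_or_gt_of_ne h1 with h | h
  · -- k < j
    have key : ∀ t : ℕ, t + 1 < j + 1 → t + 1 ≤ j - 1 + 0 + 1 → j - (t + 1) ≠ 0 →
        al m j + ((t : ℝ) + 1) * (al m j - al m (j + 1)) < al m (j - (t + 1)) := by
      intro t
      induction t with
      | zero =>
        intro _ _ h5
        have e : j - (0 + 1) + 1 = j := by omega
        have d1 := al_diff m (j - (0 + 1)) (by omega)
        rw [e] at d1
        have d2 := al_diff m j hj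
        have d3 := al_anti' (m + 1) (j - (0 + 1)) j (by omega) (by omega)
        have := mul_lt_mul_of_pos_left d3 hm
        push_cast
        linarith
      | succ t ih =>
        intro h3 h4 h5
        have i1 := ih (by omega) (by omega) (by omega)
        have e : j - (t + 1 + 1) + 1 = j - (t + 1) := by omega
        have d1 := al_diff m (j - (t + 1 + 1)) (by omega)
        rw [e] at d1
        have d2 := al_diff m j hj
        have d3 := al_anti' (m + 1) (j - (t + 1 + 1)) j (by omega) (by omega)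
        have := mul_lt_mul_of_pos_left d3 hm
        push_cast
        linarith
    have := key (j - k - 1) (by omega) (by omega) (by omega)
    have e : j - (j - k - 1 + 1) = k := by omega
    rw [e] at this
    have e2 : ((j - k - 1 : ℕ) : ℝ) + 1 = (j : ℝ) - k := by
      have : j - k - 1 + 1 + k = j := by omega
      have := congrArg (fun x : ℕ => (x : ℝ)) this
      push_cast at this
      linarith
    rw [e2] at this
    linarith
  · have key : ∀ t : ℕ,
        al m j - ((t : ℝ) + 2) * (al m j - al m (j + 1)) < al m (j + t + 2) := by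
      intro t
      induction t with
      | zero =>
        have d1 := al_diff m (j + 1) (by omega)
        have d2 := al_diff m j hj
        have d3 := al_anti' (m + 1) j (j + 1) (by omega) (by omega)
        have := mul_lt_mul_of_pos_left d3 hm
        push_cast
        simp only [add_zero]
        linarith
      | succ t ih =>
        have d1 := al_diff m (j + t + 2) (by omega)
        have d2 := al_diff m j hj
        have d3 := al_anti' (m + 1) j (j + t + 2) (by omega) (by omega)
        have := mul_lt_mul_of_pos_left d3 hm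
        have e : j + (t + 1) + 2 = j + t + 2 + 1 := by omega
        rw [e]
        push_cast
        linarith
    have := key (k - j - 2)
    have e : j + (k - j - 2) + 2 = k := by omega
    rw [e] at this
    have e2 : ((k - j - 2 : ℕ) : ℝ) + 2 = (k : ℝ) - j := by
      have := congrArg (fun x : ℕ => (x : ℝ)) e
      push_cast at this
      linarith
    rw [e2] at this
    exact this

lemma inv_lim : Tendsto (fun r : ℕ => 1 / (r : ℝ)) atTop (𝓝 0) :=
  tendsto_one_div_atTop_nhds_zero_nat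

lemma ev_pos : ∀ᶠ r : ℕ in atTop, (0 : ℝ) < r := by
  filter_upwards [eventually_gt_atTop 0] with r hr
  exact_mod_cast hr

lemma dual_lim (m : ℕ) : ∀ j : ℕ,
    Tendsto (fun r : ℕ => da r m j / (r : ℝ) ^ m) atTop (𝓝 (al m j)) ∧
    Tendsto (fun r : ℕ => dm r m j / (r : ℝ) ^ m) atTop (𝓝 0) := by
  induction m with
  | zero =>
    intro j
    simp only [da_zero, dm_zero, al_zero, pow_zero, div_one]
    exact ⟨tendsto_const_nhds, tendsto_const_nhds⟩
  | succ m ih =>
    intro j
    constructor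
    · have h := ((ih j).1.mul inv_lim).add
        (((ih (j + 1)).1.add (ih (j + 1)).2).const_mul (1 / (j : ℝ)))
      rw [mul_zero, zero_add, add_zero, ← al_succ] at h
      refine h.congr' ?_
      filter_upwards [ev_pos] with r hr
      rw [da_succ]
      field_simp
      ring
    · have h := ((ih j).1.sub ((ih (j + 1)).1.add (ih (j + 1)).2)).mul inv_lim
      rw [mul_zero] at h
      refine h.congr' ?_
      filter_upwards [ev_pos] with r hr
      rw [dm_succ]
      field_simp
      ring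

lemma dm_lim (m j : ℕ) :
    Tendsto (fun r : ℕ => dm r (m + 1) j / (r : ℝ) ^ m) atTop (𝓝 (al m j - al m (j + 1))) := by
  have h := (dual_lim m j).1.sub ((dual_lim m (j + 1)).1.add (dual_lim m (j + 1)).2)
  rw [add_zero] at h
  refine h.congr fun r => ?_
  rw [dm_succ]
  ring

/-- A bound for the second dual variable on small degrees. -/
noncomputable def mb (K : ℕ) (r : ℝ) (m : ℕ) : ℝ := ∑ j ∈ range (K + 1), |dm r m j|

/-- The penalty for large degrees. -/
noncomputable def pen (K : ℕ) (r : ℝ) : ℕ → ℝ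
  | 0 => 0
  | m + 1 => (3 + r) * pen K r m + (K + 1) * mb K r m

lemma mb_nonneg (K : ℕ) (r : ℝ) (m : ℕ) : 0 ≤ mb K r m :=
  Finset.sum_nonneg fun _ _ => abs_nonneg _

lemma abs_le_mb (K : ℕ) (r : ℝ) (m j : ℕ) (hj : j ≤ K) : |dm r m j| ≤ mb K r m :=
  Finset.single_le_sum (f := fun j => |dm r m j|) (fun _ _ => abs_nonneg _)
    (Finset.mem_range.2 (by omega))

lemma pen_nonneg (K : ℕ) (r : ℝ) (hr : 0 ≤ r) (m : ℕ) : 0 ≤ pen K r m := by
  induction m with
  | zero => exact le_rfl
  | succ m ih =>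
    have := mb_nonneg K r m
    unfold pen
    positivity

lemma mb_lim (K m : ℕ) : Tendsto (fun r : ℕ => mb K r m / (r : ℝ) ^ m) atTop (𝓝 0) := by
  have h : Tendsto (fun r : ℕ => ∑ j ∈ range (K + 1), |dm r m j / (r : ℝ) ^ m|) atTop
      (𝓝 (∑ j ∈ range (K + 1), |(0 : ℝ)|)) :=
    tendsto_finsetSum _ fun j _ => (dual_lim m j).2.abs
  simp only [abs_zero, Finset.sum_const_zero] at h
  refine h.congr fun r => ?_
  unfold mb
  rw [Finset.sum_div]
  refine Finset.sum_congr rfl fun j _ => ?_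
  rw [abs_div, abs_of_nonneg (by positivity : (0 : ℝ) ≤ (r : ℝ) ^ m)]

lemma pen_lim (K m : ℕ) : Tendsto (fun r : ℕ => pen K r m * r / (r : ℝ) ^ m) atTop (𝓝 0) := by
  induction m with
  | zero => simp [pen]
  | succ m ih =>
    have h := (((inv_lim.const_mul 3).add_const 1).mul ih).add ((mb_lim K m).const_mul ((K : ℝ) + 1))
    simp only [mul_zero, add_zero] at h
    refine h.congr' ?_
    filter_upwards [ev_pos] with r hr
    rw [pen]
    field_simp
    ring

lemma pen_lim' (K m : ℕ) : Tendsto (fun r : ℕ => pen K r m / (r : ℝ) ^ m) atTop (𝓝 0) := by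
  have h := (pen_lim K m).mul inv_lim
  rw [mul_zero] at h
  refine h.congr' ?_
  filter_upwards [ev_pos] with r hr
  field_simp

lemma ev_of_lim {f : ℕ → ℝ} {c : ℝ} (m : ℕ) (h : Tendsto (fun r : ℕ => f r / (r : ℝ) ^ m) atTop (𝓝 c))
    (hc : 0 < c) : ∀ᶠ r : ℕ in atTop, 0 ≤ f r := by
  filter_upwards [h.eventually (lt_mem_nhds hc), ev_pos] with r h1 hr
  have : (0 : ℝ) < (r : ℝ) ^ m := by positivity
  exact ((div_pos_iff_of_pos_right this).1 h1).le

lemma ev_da (m j : ℕ) (hj : 0 < j) : ∀ᶠ r : ℕ in atTop, 0 ≤ da r m j :=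
  ev_of_lim m (dual_lim m j).1 (al_pos m j hj)

lemma ev_small (m j k : ℕ) (hj : 0 < j) (hk : 0 < k) : ∀ᶠ r : ℕ in atTop,
    da r m j + (-dm r (m + 1) j) * ((k : ℝ) - j) ≤ da r m k + ((k : ℝ) - j) * dm r m k := by
  by_cases h1 : k = j
  · subst h1
    simp
  by_cases h2 : k = j + 1
  · subst h2
    refine Eventually.of_forall fun r => le_of_eq ?_
    rw [dm_succ]
    push_cast
    ring
  have h := ((dual_lim m k).1.add ((dual_lim m k).2.const_mul ((k : ℝ) - j))).sub
    ((dual_lim m j).1.sub ((dm_lim m j).const_mul ((k : ℝ) - j)))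
  have hc := al_convex m j k hj hk h1 h2
  have h' : Tendsto (fun r : ℕ => ((da r m k + ((k : ℝ) - j) * dm r m k) -
      (da r m j + (-dm r (m + 1) j) * ((k : ℝ) - j))) / (r : ℝ) ^ m) atTop
      (𝓝 (al m k + ((k : ℝ) - j) * 0 - (al m j - ((k : ℝ) - j) * (al m j - al m (j + 1))))) := by
    refine h.congr fun r => ?_
    ring
  filter_upwards [ev_of_lim m h' (by linarith)] with r hr
  linarith

lemma ev_big (K m j J : ℕ) (hj : 0 < j) (hJ : 3 * j ≤ J) : ∀ᶠ r : ℕ in atTop, ∀ k : ℕ, J < k →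
    da r m j + (-dm r (m + 1) j) * ((k : ℝ) - j) ≤ -(pen K r m * ((k : ℝ) + j + r)) := by
  have hd := al_diff m j hj
  have hp := al_pos (m + 1) j hj
  have h1 : Tendsto (fun r : ℕ => (dm r (m + 1) j - pen K r m) / (r : ℝ) ^ m) atTop
      (𝓝 (al m j - al m (j + 1) - 0)) := by
    refine ((dm_lim m j).sub (pen_lim' K m)).congr fun r => ?_
    ring
  have h2 : Tendsto (fun r : ℕ => (dm r (m + 1) j * ((J : ℝ) + 1 - j) - da r m j -
      pen K r m * ((J : ℝ) + 1 + j + r)) / (r : ℝ) ^ m) atTop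
      (𝓝 ((al m j - al m (j + 1)) * ((J : ℝ) + 1 - j) - al m j - (0 * ((J : ℝ) + 1 + j) + 0))) := by
    refine ((((dm_lim m j).mul_const _).sub (dual_lim m j).1).sub
      (((pen_lim' K m).mul_const _).add (pen_lim K m))).congr fun r => ?_
    ring
  have hj' : (1 : ℝ) ≤ j := by exact_mod_cast hj
  have hJ' : 3 * (j : ℝ) ≤ J := by exact_mod_cast hJ
  have hm : (0 : ℝ) ≤ m := Nat.cast_nonneg m
  have h4 : al m j = ((j : ℝ) + (m + 1)) * al (m + 1) j := by
    rw [al_succ']; field_simp
  have c1 : 0 < al m j - al m (j + 1) - 0 := by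
    rw [hd]
    have : (0 : ℝ) < (m + 1) * al (m + 1) j := by positivity
    linarith
  have c2 : 0 < (al m j - al m (j + 1)) * ((J : ℝ) + 1 - j) - al m j -
      (0 * ((J : ℝ) + 1 + j) + 0) := by
    rw [hd, h4]
    have : (0 : ℝ) < ((m + 1) * ((J : ℝ) + 1 - j) - (j + (m + 1))) := by nlinarith
    have := mul_pos this hp
    linarith
  filter_upwards [ev_of_lim m h1 c1, ev_of_lim m h2 c2] with r r1 r2 k hk
  have hk' : (J : ℝ) + 1 ≤ k := by exact_mod_cast hk
  have := mul_nonneg r1 (sub_nonneg.2 hk')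
  nlinarith

/-- The edge shares at rank `n`, `m` ranks below the top. -/
noncomputable def sh (K : ℕ) (r : ℝ) (n m : ℕ) (j i : ℕ) : ℝ :=
  if j ≤ 3 ^ n then da r m j + ((j : ℝ) - i) * dm r m j else -(pen K r m * ((j : ℝ) + i + r))

lemma ev_step (K n m : ℕ) (hK : 3 ^ (n + 1) ≤ K) : ∀ᶠ r : ℕ in atTop, ∀ j : ℕ, 0 < j →
    ∃ θ l : ℝ, (∀ k : ℕ, 0 < k → θ + l * ((k : ℝ) - j) ≤ sh K r (n + 1) m k j) ∧
      (∀ i : ℕ, (j : ℝ) * sh K r n (m + 1) j i ≤
        ((j : ℝ) + r) * θ + r * l - j * (l * ((j : ℝ) - i))) := by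
  have e1 : ∀ᶠ r : ℕ in atTop, ∀ j ∈ Finset.Icc 1 K, ∀ k ∈ Finset.Icc 1 K,
      da r m j + (-dm r (m + 1) j) * ((k : ℝ) - j) ≤ da r m k + ((k : ℝ) - j) * dm r m k := by
    rw [Filter.eventually_all_finset]
    intro j hj
    rw [Filter.eventually_all_finset]
    intro k hk
    exact ev_small m j k (Finset.mem_Icc.1 hj).1 (Finset.mem_Icc.1 hk).1
  have e2 : ∀ᶠ r : ℕ in atTop, ∀ j ∈ Finset.Icc 1 (3 ^ n), ∀ k : ℕ, 3 ^ (n + 1) < k →
      da r m j + (-dm r (m + 1) j) * ((k : ℝ) - j) ≤ -(pen K r m * ((k : ℝ) + j + r)) := by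
    rw [Filter.eventually_all_finset]
    intro j hj
    have := Finset.mem_Icc.1 hj
    exact ev_big K m j _ this.1 (by rw [pow_succ]; omega)
  have e3 : ∀ᶠ r : ℕ in atTop, ∀ j ∈ Finset.Icc 1 K, 0 ≤ da r m j := by
    rw [Filter.eventually_all_finset]
    intro j hj
    exact ev_da m j (Finset.mem_Icc.1 hj).1
  filter_upwards [e1, e2, e3] with r r1 r2 r3 j hj
  have hj' : (1 : ℝ) ≤ j := by exact_mod_cast hj
  have hr : (0 : ℝ) ≤ r := Nat.cast_nonneg r
  have h3 : 3 ^ n ≤ K := le_trans (by rw [pow_succ]; omega) hK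
  by_cases hs : j ≤ 3 ^ n
  · refine ⟨da r m j, -dm r (m + 1) j, fun k hk => ?_, fun i => ?_⟩
    · unfold sh
      split_ifs with h4
      · exact r1 j (Finset.mem_Icc.2 ⟨hj, by omega⟩) k (Finset.mem_Icc.2 ⟨hk, by omega⟩)
      · exact r2 j (Finset.mem_Icc.2 ⟨hj, hs⟩) k (by omega)
    · unfold sh
      rw [if_pos hs, da_succ, dm_succ]
      refine le_of_eq ?_
      field_simp
      ring
  · have hg := pen_nonneg K r hr m
    have hb := mb_nonneg K r m
    have hK0 : (0 : ℝ) ≤ K := Nat.cast_nonneg K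
    refine ⟨-(((2 + r) * pen K r m + (K + 1) * mb K r m) * j), -pen K r m,
      fun k hk => ?_, fun i => ?_⟩
    · have hk' : (1 : ℝ) ≤ k := by exact_mod_cast hk
      unfold sh
      split_ifs with h4
      · have a1 := r3 k (Finset.mem_Icc.2 ⟨hk, by omega⟩)
        have a2 := abs_le.1 (abs_le_mb K r m k (by omega))
        have a3 : (k : ℝ) ≤ K := by exact_mod_cast (by omega : k ≤ K)
        have a4 : -(((k : ℝ) + j) * mb K r m) ≤ ((k : ℝ) - j) * dm r m k := by
          nlinarith [mul_nonneg (by linarith : (0 : ℝ) ≤ k) (by linarith : 0 ≤ mb K r m + dm r m k),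
            mul_nonneg (by linarith : (0 : ℝ) ≤ j) (by linarith : 0 ≤ mb K r m - dm r m k)]
        have a5 : ((k : ℝ) + j) * mb K r m ≤ (K + 1) * j * mb K r m := by
          refine mul_le_mul_of_nonneg_right ?_ hb
          nlinarith
        have a6 : 0 ≤ pen K r m * k := by positivity
        have a7 : 0 ≤ (1 + r) * pen K r m * j := by positivity
        nlinarith
      · have a1 : 0 ≤ (K + 1) * mb K r m * j := by positivity
        have a2 : 0 ≤ pen K r m * r * (j - 1) :=
          mul_nonneg (mul_nonneg hg hr) (by linarith)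
        nlinarith
    · unfold sh
      rw [if_neg hs, pen]
      have hi : (0 : ℝ) ≤ i := Nat.cast_nonneg i
      have a1 : 0 ≤ ((2 + r) * pen K r m + (K + 1) * mb K r m) * j * i := by positivity
      have a2 : 0 ≤ pen K r m * r * (j - 1) :=
        mul_nonneg (mul_nonneg hg hr) (by linarith)
      have a3 : 0 ≤ pen K r m * j * j := by positivity
      nlinarith

/-- The lower bound of the linear program. -/
theorem ev_lower (N : ℕ) : ∀ᶠ r : ℕ in atTop,
    ∀ (P : Type) [PartialOrder P] [OrderBot P] [LocallyFiniteOrder P] (ρ : P → ℕ),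
      IsDiff r P ρ → (r : ℝ) * (da r N 1 + dm r N 1) ≤ ({x : P | ρ x = N + 1}.ncard : ℝ) := by
  have e : ∀ᶠ r : ℕ in atTop, ∀ m ∈ range N, ∀ j : ℕ, 0 < j →
      ∃ θ l : ℝ, (∀ k : ℕ, 0 < k → θ + l * ((k : ℝ) - j) ≤ sh (3 ^ (N + 1)) r (N - m + 1) m k j) ∧
      (∀ i : ℕ, (j : ℝ) * sh (3 ^ (N + 1)) r (N - m) (m + 1) j i ≤
        ((j : ℝ) + r) * θ + r * l - j * (l * ((j : ℝ) - i))) := by
    rw [Filter.eventually_all_finset]
    intro m _
    exact ev_step _ (N - m) m (Nat.pow_le_pow_right (by norm_num) (by omega))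
  filter_upwards [e] with r hr P _ _ _ ρ h
  have key : ∀ m, m ≤ N → h.pot (N - m + 1) (sh (3 ^ (N + 1)) r (N - m + 1) m) ≤
      ({x : P | ρ x = N + 1}.ncard : ℝ) := by
    intro m
    induction m with
    | zero =>
      intro _
      refine h.pot_top (N + 1) _ fun j i hj => ?_
      have hj' : (0 : ℝ) < j := by exact_mod_cast hj
      unfold sh
      split_ifs
      · rw [da_zero, dm_zero, mul_zero, add_zero, mul_one_div_cancel hj'.ne']
      · simp [pen]
    | succ m ih =>
      intro hm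
      have e1 : N - (m + 1) + 1 = N - m := by omega
      rw [e1]
      refine le_trans (h.pot_step (N - m) (by omega) _ _ fun x hx => ?_) (ih (by omega))
      obtain ⟨θ, l, h1, h2⟩ := hr m (Finset.mem_range.2 (by omega)) (dg x) (h.dg_pos (by omega))
      refine ⟨θ, l, fun w hw => h1 _ (h.dg_pos ?_), fun z _ => h2 _⟩
      have := h.cov x w hw
      omega
  have := key N le_rfl
  rw [Nat.sub_self, zero_add, h.pot_one] at this
  refine le_trans (le_of_eq ?_) this
  simp [sh]

end Pool.Agent.P.MP_987dc0_co
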