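import Pool.Agent.P.MP_987dc0_co.Local

set_option autoImplicit false

namespace Pool.Agent.P.MP_987dc0_co

open Finset

/-- Shares at the top rank. -/
noncomputable def s0 (j _i : ℕ) : ℝ := 1 / j

/-- Shares one rank below the top. -/
noncomputable def s1 (r : ℕ) (j i : ℕ) : ℝ := 1 / j + ((r : ℝ) + j - i) / (j * (j + 1))

/-- Shares of rank two when the top rank is four. -/
noncomputable def s2 (r : ℕ) (j _i : ℕ) : ℝ :=
  if j = 1 then ((r : ℝ) + 1) * (r + 6) / 6
  else if j = 2 then ((r : ℝ) ^ 2 + 11 * r + 14) / 24 else 0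

lemma int_quad (a b : ℕ) : (0 : ℝ) ≤ ((a : ℝ) - b) * ((a : ℝ) - b - 1) := by
  rcases le_or_gt a b with h | h
  · have : (a : ℝ) ≤ b := by exact_mod_cast h
    nlinarith
  · have : (b : ℝ) + 1 ≤ a := by exact_mod_cast h
    nlinarith

lemma line0 (j k : ℕ) (hj : 0 < j) (hk : 0 < k) :
    1 / (j : ℝ) + (-(1 / ((j : ℝ) * (j + 1)))) * ((k : ℝ) - j) ≤ 1 / k := by
  have hj' : (0 : ℝ) < j := by exact_mod_cast hj
  have hk' : (0 : ℝ) < k := by exact_mod_cast hk
  have h := int_quad k j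
  have e : 1 / (k : ℝ) - (1 / (j : ℝ) + (-(1 / ((j : ℝ) * (j + 1)))) * ((k : ℝ) - j)) =
      ((k : ℝ) - j) * ((k : ℝ) - j - 1) / (k * (j * (j + 1))) := by
    field_simp
    ring
  have : (0 : ℝ) ≤ ((k : ℝ) - j) * ((k : ℝ) - j - 1) / (k * (j * (j + 1))) := by positivity
  linarith

lemma line1 (r k : ℕ) (hk : 0 < k) :
    (1 + (r : ℝ) / 2) + (-(((r : ℝ) + 1) / 3)) * ((k : ℝ) - (1 : ℕ)) ≤ s1 r k 1 := by
  have hk' : (0 : ℝ) < k := by exact_mod_cast hk
  have h := int_quad k 1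
  have hr : (0 : ℝ) ≤ r := Nat.cast_nonneg r
  have e : s1 r k 1 - ((1 + (r : ℝ) / 2) + (-(((r : ℝ) + 1) / 3)) * ((k : ℝ) - (1 : ℕ))) =
      ((k : ℝ) - (1 : ℕ)) * ((k : ℝ) - (1 : ℕ) - 1) * (2 * k + r * (2 * k + 3)) /
        (6 * (k * (k + 1))) := by
    unfold s1
    push_cast
    field_simp
    ring
  have : (0 : ℝ) ≤ ((k : ℝ) - (1 : ℕ)) * ((k : ℝ) - (1 : ℕ) - 1) * (2 * k + r * (2 * k + 3)) /
        (6 * (k * (k + 1))) := by positivity
  linarith

lemma line2 (r k : ℕ) (hr : 1 ≤ r) (hk : 0 < k) :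
    (((r : ℝ) + 3) / 6) + (-(((r : ℝ) + 1) / 12)) * ((k : ℝ) - (2 : ℕ)) ≤ s1 r k 2 := by
  have hk' : (0 : ℝ) < k := by exact_mod_cast hk
  have h := int_quad k 2
  have hr' : (0 : ℝ) ≤ (r : ℝ) - 1 := by
    have : (1 : ℝ) ≤ r := by exact_mod_cast hr
    linarith
  have e : s1 r k 2 - ((((r : ℝ) + 3) / 6) + (-(((r : ℝ) + 1) / 12)) * ((k : ℝ) - (2 : ℕ))) =
      ((k : ℝ) - (2 : ℕ)) * ((k : ℝ) - (2 : ℕ) - 1) * (2 * k + (r - 1) * (k + 2)) /
        (12 * (k * (k + 1))) := by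
    unfold s1
    push_cast
    field_simp
    ring
  have : (0 : ℝ) ≤ ((k : ℝ) - (2 : ℕ)) * ((k : ℝ) - (2 : ℕ) - 1) * (2 * k + (r - 1) * (k + 2)) /
        (12 * (k * (k + 1))) := by positivity
  linarith

namespace IsDiff

variable {r : ℕ} {P : Type} [PartialOrder P] [OrderBot P] {ρ : P → ℕ} [LocallyFiniteOrder P]

lemma top_two (h : IsDiff r P ρ) (n : ℕ) (hn : n ≠ 0) :
    h.pot n (s1 r) ≤ ({x : P | ρ x = n + 1}.ncard : ℝ) := by
  refine le_trans (h.pot_step n hn (s1 r) s0 fun x hx => ?_) (h.pot_top (n + 1) s0 ?_)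
  · have hj : 0 < dg x := h.dg_pos (by omega)
    have hj' : (0 : ℝ) < dg x := by exact_mod_cast hj
    refine ⟨1 / (dg x : ℝ), -(1 / ((dg x : ℝ) * (dg x + 1))), fun w hw => ?_, fun z _ => ?_⟩
    · have := h.cov x w hw
      exact line0 _ _ hj (h.dg_pos (by omega))
    · refine le_of_eq ?_
      unfold s1
      field_simp
      ring
  · intro j i hj
    have hj' : (0 : ℝ) < j := by exact_mod_cast hj
    unfold s0
    rw [mul_one_div_cancel hj'.ne']

lemma ncard_zero (h : IsDiff r P ρ) : {x : P | ρ x = 0}.ncard = 1 := by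
  rw [← h.card_lev, lev_zero, Finset.card_singleton]

lemma ncard_one (h : IsDiff r P ρ) : {x : P | ρ x = 1}.ncard = r := by
  rw [← h.card_lev, card_lev_one]

lemma lb_two (h : IsDiff r P ρ) : (r : ℝ) * (r + 3) / 2 ≤ ({x : P | ρ x = 2}.ncard : ℝ) := by
  refine le_trans (le_of_eq ?_) (h.top_two 1 one_ne_zero)
  rw [pot_one]
  unfold s1
  push_cast
  ring

lemma lb_three (h : IsDiff r P ρ) :
    (r : ℝ) * (r + 1) * (r + 8) / 6 ≤ ({x : P | ρ x = 3}.ncard : ℝ) := by
  refine le_trans ?_ (h.top_two 2 two_ne_zero)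
  refine le_trans (le_of_eq ?_)
    (h.pot_step 1 one_ne_zero (fun _ _ => ((r : ℝ) + 1) * (r + 8) / 6) (s1 r) fun x hx => ?_)
  · rw [pot_one]
    ring
  · rw [h.dg_atom hx]
    refine ⟨1 + (r : ℝ) / 2, -(((r : ℝ) + 1) / 3), fun w hw => ?_, fun z hz => ?_⟩
    · have := h.cov x w hw
      exact line1 r _ (h.dg_pos (by omega))
    · have h1 := h.cov z x hz
      rw [h.eq_bot (x := z) (by omega), h.dg_bot]
      refine le_of_eq ?_
      push_cast
      ring

lemma lb_four (h : IsDiff r P ρ) (hr : 1 ≤ r) :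
    (r : ℝ) * (r ^ 3 + 18 * r ^ 2 + 59 * r + 34) / 24 ≤ ({x : P | ρ x = 4}.ncard : ℝ) := by
  have hr' : (1 : ℝ) ≤ r := by exact_mod_cast hr
  refine le_trans ?_ (h.top_two 3 three_ne_zero)
  refine le_trans ?_ (h.pot_step 2 two_ne_zero (s2 r) (s1 r) fun x hx => ?_)
  · refine le_trans (le_of_eq ?_) (h.pot_step 1 one_ne_zero
      (fun _ _ => ((r : ℝ) ^ 3 + 18 * r ^ 2 + 59 * r + 34) / 24) (s2 r) fun x hx => ?_)
    · rw [pot_one]
      ring
    · rw [h.dg_atom hx]
      refine ⟨((r : ℝ) + 1) * (r + 6) / 6, -((3 * (r : ℝ) ^ 2 + 17 * r + 10) / 24),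
        fun w hw => ?_, fun z hz => ?_⟩
      · have h1 := h.cov x w hw
        have h2 : 0 < dg w := h.dg_pos (by omega)
        unfold s2
        split_ifs with h3 h4
        · rw [h3]
          simp
        · rw [h4]
          refine le_of_eq ?_
          push_cast
          ring
        · have h5 : (3 : ℝ) ≤ dg w := by exact_mod_cast (by omega : 3 ≤ dg w)
          push_cast
          nlinarith [mul_nonneg (sub_nonneg.2 h5) (by positivity :
            (0 : ℝ) ≤ 3 * (r : ℝ) ^ 2 + 17 * r + 10)]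
      · have h1 := h.cov z x hz
        rw [h.eq_bot (x := z) (by omega), h.dg_bot]
        refine le_of_eq ?_
        push_cast
        ring
  · have h0 : 0 < dg x := h.dg_pos (by omega)
    have hle : dg x ≤ r := h.dg_two hx
    have hz : ∀ z, z ⋖ x → dg z = 1 := fun z hz => by
      have h1 := h.cov z x hz
      exact h.dg_atom (by omega)
    have hw : ∀ w, x ⋖ w → 0 < dg w := fun w hw => by
      have h1 := h.cov x w hw
      exact h.dg_pos (by omega)
    by_cases h1 : dg x = 1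
    · rw [h1]
      refine ⟨1 + (r : ℝ) / 2, -(((r : ℝ) + 1) / 3), fun w h2 => line1 r _ (hw w h2),
        fun z h2 => ?_⟩
      rw [hz z h2]
      refine le_of_eq ?_
      simp only [s2, if_true]
      push_cast
      ring
    · by_cases h2 : dg x = 2
      · rw [h2]
        refine ⟨((r : ℝ) + 3) / 6, -(((r : ℝ) + 1) / 12), fun w h3 => line2 r _ hr (hw w h3),
          fun z h3 => ?_⟩
        rw [hz z h3]
        refine le_of_eq ?_
        simp only [s2, if_true, OfNat.ofNat_ne_one, if_false]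
        push_cast
        ring
      · refine ⟨0, 0, fun w h3 => ?_, fun z _ => ?_⟩
        · have h4 : (0 : ℝ) < dg w := by exact_mod_cast hw w h3
          have h5 : (dg x : ℝ) ≤ r := by exact_mod_cast hle
          have h6 : (0 : ℝ) ≤ (r : ℝ) + dg w - dg x := by linarith
          unfold s1
          simp only [zero_mul, add_zero]
          positivity
        · simp [s2, h1, h2]

end IsDiff

end Pool.Agent.P.MP_987dc0_co
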