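import Pool.Agent.P.MP_987dc0_co.Graded

set_option autoImplicit false

namespace Pool.Agent.P.MP_987dc0_co

/-- Lower covers (as bit masks) of the elements of rank 2. -/
def m2 : List ℕ := [1, 1, 2, 2, 4, 4, 3, 5, 6]

/-- Lower covers (as bit masks) of the elements of rank 3. -/
def m3 : List ℕ :=
  [1, 2, 3, 4, 8, 12, 16, 32, 48, 65, 66, 129, 130, 68, 72, 260, 264, 144, 160, 272, 288, 448]

/-- Lower covers (as bit masks) of the elements of rank 4. -/
def m4 : List ℕ :=
  [2121728, 2195456, 2099712, 2102272, 2752512, 3407872, 6148, 393472, 81952, 9728, 1605632, 5,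
   513, 2049, 6, 1026, 4098, 516, 1028, 40, 8200, 32776, 48, 16400, 65552, 8224, 32800, 320,
   131136, 524352, 384, 262272, 1048704, 524544, 1048832, 16896, 17408, 133120, 264192, 135168,
   266240, 40960, 589824, 1114112, 1, 2, 8, 16, 64, 128]

/-- Edge test from a list of bit masks. -/
def bit {a b : ℕ} (m : List ℕ) (x : Fin a) (y : Fin b) : Prop :=
  (m.getD y.val 0).testBit x.val = true

instance {a b : ℕ} (m : List ℕ) (x : Fin a) (y : Fin b) : Decidable (bit m x y) := by
  unfold bit; infer_instance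

/-- The levels: explicit up to rank four, then repeated reflection. -/
def L : ℕ → Type
  | 0 => Fin 1
  | 1 => Fin 3
  | 2 => Fin 9
  | 3 => Fin 22
  | 4 => Fin 50
  | (n + 5) => L (n + 3) ⊕ L (n + 4) × Fin 3

/-- The edges. -/
def E : (n : ℕ) → L n → L (n + 1) → Prop
  | 0 => fun (x : Fin 1) (y : Fin 3) => bit [1, 1, 1] x y
  | 1 => fun (x : Fin 3) (y : Fin 9) => bit m2 x y
  | 2 => fun (x : Fin 9) (y : Fin 22) => bit m3 x y
  | 3 => fun (x : Fin 22) (y : Fin 50) => bit m4 x y
  | (n + 4) => fun (y : L (n + 4)) (w : L (n + 3) ⊕ L (n + 4) × Fin 3) =>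
      Sum.elim (fun x => E (n + 3) x y) (fun p => y = p.1) w

lemma L_finite : ∀ n, Finite (L n)
  | 0 => inferInstanceAs (Finite (Fin 1))
  | 1 => inferInstanceAs (Finite (Fin 3))
  | 2 => inferInstanceAs (Finite (Fin 9))
  | 3 => inferInstanceAs (Finite (Fin 22))
  | 4 => inferInstanceAs (Finite (Fin 50))
  | (n + 5) =>
    have := L_finite (n + 3)
    have := L_finite (n + 4)
    inferInstanceAs (Finite (L (n + 3) ⊕ L (n + 4) × Fin 3))

lemma ncard_eq {a : ℕ} (p : Fin a → Prop) [DecidablePred p] :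
    {x | p x}.ncard = (Finset.univ.filter p).card := by
  rw [← Set.ncard_coe_finset]
  congr 1
  ext x
  simp

lemma exists_up : ∀ n (x : L n), ∃ y, E n x y
  | 0 => (by decide +kernel : ∀ x : Fin 1, ∃ y : Fin 3, bit [1, 1, 1] x y)
  | 1 => (by decide +kernel : ∀ x : Fin 3, ∃ y : Fin 9, bit m2 x y)
  | 2 => (by decide +kernel : ∀ x : Fin 9, ∃ y : Fin 22, bit m3 x y)
  | 3 => (by decide +kernel : ∀ x : Fin 22, ∃ y : Fin 50, bit m4 x y)
  | (_ + 4) => fun x => ⟨Sum.inr (x, 0), rfl⟩

lemma exists_down : ∀ n (y : L (n + 1)), ∃ x, E n x y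
  | 0 => (by decide +kernel : ∀ y : Fin 3, ∃ x : Fin 1, bit [1, 1, 1] x y)
  | 1 => (by decide +kernel : ∀ y : Fin 9, ∃ x : Fin 3, bit m2 x y)
  | 2 => (by decide +kernel : ∀ y : Fin 22, ∃ x : Fin 9, bit m3 x y)
  | 3 => (by decide +kernel : ∀ y : Fin 50, ∃ x : Fin 22, bit m4 x y)
  | (n + 4) => fun w => by
    rcases (w : L (n + 3) ⊕ L (n + 4) × Fin 3) with x | p
    · exact exists_up (n + 3) x
    · exact ⟨p.1, rfl⟩

/-- The graded graph of the example. -/
def G : GG where
  L := L
  E := E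
  fin := L_finite
  o := (0 : Fin 1)
  uniq := fun x => Subsingleton.elim (α := Fin 1) x 0
  down := exists_down

lemma deg0 (x : Fin 1) : {y : Fin 3 | bit [1, 1, 1] x y}.ncard = 3 := by
  rw [ncard_eq]
  revert x
  decide +kernel

lemma deg_base {a b c : ℕ} (m m' : List ℕ)
    (h : ∀ x : Fin b, (Finset.univ.filter (fun y : Fin c => bit m' x y)).card =
      (Finset.univ.filter (fun z : Fin a => bit m z x)).card + 3) (x : Fin b) :
    {y : Fin c | bit m' x y}.ncard = {z : Fin a | bit m z x}.ncard + 3 := by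
  rw [ncard_eq, ncard_eq]
  exact h x

lemma com_base {a b c : ℕ} (m m' : List ℕ)
    (h : ∀ x y : Fin b, x ≠ y →
      (Finset.univ.filter (fun z : Fin a => bit m z x ∧ bit m z y)).card =
      (Finset.univ.filter (fun w : Fin c => bit m' x w ∧ bit m' y w)).card) (x y : Fin b)
      (hxy : x ≠ y) :
    {z : Fin a | bit m z x ∧ bit m z y}.ncard = {w : Fin c | bit m' x w ∧ bit m' y w}.ncard := by
  rw [ncard_eq, ncard_eq]
  exact h x y hxy

lemma refl_deg {A B : Type} [Finite A] [Finite B] (R : A → B → Prop) (y : B) :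
    {w : A ⊕ B × Fin 3 | Sum.elim (fun x => R x y) (fun p => y = p.1) w}.ncard =
      {z | R z y}.ncard + 3 := by
  have e : {w : A ⊕ B × Fin 3 | Sum.elim (fun x => R x y) (fun p => y = p.1) w} =
      Sum.inl '' {z | R z y} ∪ (fun i : Fin 3 => Sum.inr (y, i)) '' Set.univ := by
    ext w
    rcases w with x | ⟨p, i⟩
    · simp
    · simp [eq_comm]
  have hinj : Function.Injective (fun i : Fin 3 => (Sum.inr (y, i) : A ⊕ B × Fin 3)) := by
    intro i j h
    simpa using h
  rw [e, Set.ncard_union_eq, Set.ncard_image_of_injective _ Sum.inl_injective,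
    Set.ncard_image_of_injective _ hinj, Set.ncard_univ]
  · simp
  · rw [Set.disjoint_left]
    rintro _ ⟨x, _, rfl⟩ ⟨i, _, h⟩
    simp at h

lemma refl_com {A B : Type} (R : A → B → Prop) (x y : B) (hxy : x ≠ y) :
    {z | R z x ∧ R z y}.ncard =
      {w : A ⊕ B × Fin 3 | Sum.elim (fun z => R z x) (fun p => x = p.1) w ∧
        Sum.elim (fun z => R z y) (fun p => y = p.1) w}.ncard := by
  have e : {w : A ⊕ B × Fin 3 | Sum.elim (fun z => R z x) (fun p => x = p.1) w ∧
        Sum.elim (fun z => R z y) (fun p => y = p.1) w} = Sum.inl '' {z | R z x ∧ R z y} := by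
    ext w
    rcases w with z | ⟨p, i⟩
    · simp
    · simp only [Set.mem_ofPred_eq, Sum.elim_inr, Set.mem_image, reduceCtorEq, and_false,
        exists_false, iff_false, not_and]
      rintro rfl h
      exact hxy h.symm
  rw [e, Set.ncard_image_of_injective _ Sum.inl_injective]

lemma deg : ∀ n (x : L (n + 1)), {y | E (n + 1) x y}.ncard = {z | E n z x}.ncard + 3
  | 0 => deg_base (a := 1) (b := 3) (c := 9) [1, 1, 1] m2 (by decide +kernel)
  | 1 => deg_base (a := 3) (b := 9) (c := 22) m2 m3 (by decide +kernel)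
  | 2 => deg_base (a := 9) (b := 22) (c := 50) m3 m4 (by decide +kernel)
  | (n + 3) => fun y =>
    have := L_finite (n + 3)
    have := L_finite (n + 4)
    refl_deg (E (n + 3)) y

lemma com : ∀ n (x y : L (n + 1)), x ≠ y →
    {z | E n z x ∧ E n z y}.ncard = {w | E (n + 1) x w ∧ E (n + 1) y w}.ncard
  | 0 => com_base (a := 1) (b := 3) (c := 9) [1, 1, 1] m2 (by decide +kernel)
  | 1 => com_base (a := 3) (b := 9) (c := 22) m2 m3 (by decide +kernel)
  | 2 => com_base (a := 9) (b := 22) (c := 50) m3 m4 (by decide +kernel)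
  | (n + 3) => fun x y hxy => refl_com (E (n + 3)) x y hxy

lemma level_four : {x : G.V | G.rk x = 4}.ncard = 50 := by
  rw [GG.level_ncard]
  exact (Nat.card_eq_fintype_card (α := Fin 50)).trans (Fintype.card_fin 50)

lemma le_card_partition (n : ℕ) (s : Finset (Multiset ℕ))
    (h : ∀ p ∈ s, p.sum = n ∧ ∀ i ∈ p, 0 < i) : s.card ≤ Fintype.card (Nat.Partition n) := by
  classical
  have hsub : s ⊆ (Finset.univ : Finset (Nat.Partition n)).image Nat.Partition.parts := by
    intro p hp
    rw [Finset.mem_image]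
    exact ⟨⟨p, fun {i} hi => (h p hp).2 i hi, (h p hp).1⟩, Finset.mem_univ _, rfl⟩
  exact (Finset.card_le_card hsub).trans (Finset.card_image_le.trans (by simp))

lemma le_card_small (n : ℕ) : [1, 1, 2, 3, 5].getD n 0 ≤ Fintype.card (Nat.Partition n) := by
  match n with
  | 0 => exact le_trans (by decide +kernel) (le_card_partition 0 {0} (by decide +kernel))
  | 1 => exact le_trans (by decide +kernel) (le_card_partition 1 {{1}} (by decide +kernel))
  | 2 => exact le_trans (by decide +kernel) (le_card_partition 2 {{2}, {1, 1}} (by decide +kernel))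
  | 3 =>
    exact le_trans (by decide +kernel)
      (le_card_partition 3 {{3}, {2, 1}, {1, 1, 1}} (by decide +kernel))
  | 4 =>
    exact le_trans (by decide +kernel)
      (le_card_partition 4 {{4}, {3, 1}, {2, 2}, {2, 1, 1}, {1, 1, 1, 1}} (by decide +kernel))
  | (n + 5) => simp

lemma young_four :
    51 ≤ (∑ f ∈ Finset.Nat.antidiagonalTuple 3 4, ∏ i, Fintype.card (Nat.Partition (f i))) := by
  have h : (∑ f ∈ Finset.Nat.antidiagonalTuple 3 4, ∏ i, [1, 1, 2, 3, 5].getD (f i) 0) = 51 := by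
    decide +kernel
  rw [← h]
  exact Finset.sum_le_sum fun f _ => Finset.prod_le_prod' fun i _ => le_card_small (f i)

end Pool.Agent.P.MP_987dc0_co
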