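import Mathlib

set_option autoImplicit false

namespace Pool.Agent.P.MP_987dc0_co

/-- A graded graph given level by level. -/
structure GG where
  L : ℕ → Type
  E : ∀ n, L n → L (n + 1) → Prop
  fin : ∀ n, Finite (L n)
  o : L 0
  uniq : ∀ x : L 0, x = o
  down : ∀ n (y : L (n + 1)), ∃ x, E n x y

namespace GG

variable (G : GG)

/-- The vertices. -/
def V : Type := Σ n, G.L n

/-- The rank. -/
def rk (x : G.V) : ℕ := x.1

/-- The vertex of level `n` given by `x`. -/
def mk' (n : ℕ) (x : G.L n) : G.V := ⟨n, x⟩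

/-- The edge relation. -/
def up (a b : G.V) : Prop :=
  ∃ (n : ℕ) (x : G.L n) (y : G.L (n + 1)), G.E n x y ∧ a = G.mk' n x ∧ b = G.mk' (n + 1) y

variable {G}

lemma mk'_inj (n : ℕ) : Function.Injective (G.mk' n) := sigma_mk_injective

lemma rk_mk' (n : ℕ) (x : G.L n) : G.rk (G.mk' n x) = n := rfl

lemma up_rk {a b : G.V} (h : G.up a b) : G.rk b = G.rk a + 1 := by
  obtain ⟨n, x, y, _, rfl, rfl⟩ := h
  rfl

lemma rtg_rk {a b : G.V} (h : Relation.ReflTransGen G.up a b) : a = b ∨ G.rk a < G.rk b := by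
  induction h with
  | refl => exact Or.inl rfl
  | tail _ hbc ih =>
    have := up_rk hbc
    rcases ih with h | h
    · subst h; right; omega
    · right; omega

instance : PartialOrder G.V where
  le a b := Relation.ReflTransGen G.up a b
  le_refl _ := Relation.ReflTransGen.refl
  le_trans _ _ _ := Relation.ReflTransGen.trans
  le_antisymm a b h1 h2 := by
    rcases rtg_rk h1 with h | h
    · exact h
    · rcases rtg_rk h2 with h' | h'
      · exact h'.symm
      · omega

lemma le_def {a b : G.V} : a ≤ b ↔ Relation.ReflTransGen G.up a b := Iff.rfl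

lemma rk_lt_of_lt {a b : G.V} (h : a < b) : G.rk a < G.rk b := by
  rcases rtg_rk h.le with h' | h'
  · exact absurd h' h.ne
  · exact h'

lemma rk_le_of_le {a b : G.V} (h : a ≤ b) : G.rk a ≤ G.rk b := by
  rcases rtg_rk h with h' | h'
  · rw [h']
  · exact h'.le

lemma lt_of_up {a b : G.V} (h : G.up a b) : a < b := by
  refine lt_of_le_of_ne (Relation.ReflTransGen.single h) ?_
  rintro rfl
  have := up_rk h
  omega

lemma covBy_iff {a b : G.V} : a ⋖ b ↔ G.up a b := by
  constructor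
  · intro h
    rcases Relation.ReflTransGen.cases_head (le_def.1 h.le) with h' | ⟨c, hac, hcb⟩
    · exact absurd h' h.ne
    · have h1 : a < c := lt_of_up hac
      have h2 : c ≤ b := hcb
      rcases h2.lt_or_eq with h3 | h3
      · exact absurd h3 (h.2 h1)
      · rw [← h3]; exact hac
  · intro h
    refine ⟨lt_of_up h, fun c h1 h2 => ?_⟩
    have := up_rk h
    have := rk_lt_of_lt h1
    have := rk_lt_of_lt h2
    omega

lemma bot_le' (n : ℕ) (x : G.L n) : G.mk' 0 G.o ≤ G.mk' n x := by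
  induction n with
  | zero => rw [G.uniq x]
  | succ n ih =>
    obtain ⟨z, hz⟩ := G.down n x
    exact (ih z).trans (lt_of_up ⟨n, z, x, hz, rfl, rfl⟩).le

instance : OrderBot G.V where
  bot := G.mk' 0 G.o
  bot_le a := bot_le' a.1 a.2

lemma level_eq (n : ℕ) : {x : G.V | G.rk x = n} = G.mk' n '' Set.univ := by
  ext ⟨k, x⟩
  constructor
  · intro h
    have h' : k = n := h
    subst h'
    exact ⟨x, trivial, rfl⟩
  · rintro ⟨y, _, h⟩
    rw [← h]; rfl

lemma level_finite (n : ℕ) : {x : G.V | G.rk x = n}.Finite := by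
  rw [level_eq]
  have := G.fin n
  exact Set.finite_univ.image _

lemma level_ncard (n : ℕ) : {x : G.V | G.rk x = n}.ncard = Nat.card (G.L n) := by
  rw [level_eq, Set.ncard_image_of_injective _ (mk'_inj n), Set.ncard_univ]

lemma Icc_finite (a b : G.V) : (Set.Icc a b).Finite := by
  refine (Set.Finite.biUnion (Set.finite_Iic (G.rk b)) (fun n _ => level_finite (G := G) n)).subset ?_
  intro c hc
  simp only [Set.mem_iUnion]
  exact ⟨G.rk c, rk_le_of_le hc.2, rfl⟩

noncomputable instance : LocallyFiniteOrder G.V := LocallyFiniteOrder.ofFiniteIcc Icc_finite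

lemma up_mk'_iff {n : ℕ} {x : G.L n} {b : G.V} :
    G.up (G.mk' n x) b ↔ ∃ y, G.E n x y ∧ G.mk' (n + 1) y = b := by
  constructor
  · rintro ⟨k, x', y, h, h1, h2⟩
    have hk : n = k := congrArg G.rk h1
    subst hk
    have := mk'_inj n h1
    subst this
    exact ⟨y, h, h2.symm⟩
  · rintro ⟨y, h, rfl⟩
    exact ⟨n, x, y, h, rfl, rfl⟩

lemma up_mk'_succ_iff {n : ℕ} {y : G.L (n + 1)} {a : G.V} :
    G.up a (G.mk' (n + 1) y) ↔ ∃ x, G.E n x y ∧ G.mk' n x = a := by
  constructor
  · rintro ⟨k, x, y', h, h1, h2⟩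
    have hk : n + 1 = k + 1 := congrArg G.rk h2
    have hk' : n = k := by omega
    subst hk'
    have := mk'_inj (n + 1) h2
    subst this
    exact ⟨x, h, h1.symm⟩
  · rintro ⟨x, h, rfl⟩
    exact ⟨n, x, y, h, rfl, rfl⟩

lemma not_up_zero {x : G.L 0} {a : G.V} : ¬ G.up a (G.mk' 0 x) := by
  intro h
  have := up_rk h
  rw [rk_mk'] at this
  omega

lemma upset_eq (n : ℕ) (x : G.L n) :
    {z : G.V | G.mk' n x ⋖ z} = G.mk' (n + 1) '' {y | G.E n x y} := by
  ext z
  simp only [Set.mem_ofPred_eq, covBy_iff, up_mk'_iff, Set.mem_image]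

lemma downset_eq (n : ℕ) (y : G.L (n + 1)) :
    {z : G.V | z ⋖ G.mk' (n + 1) y} = G.mk' n '' {x | G.E n x y} := by
  ext z
  simp only [Set.mem_ofPred_eq, covBy_iff, up_mk'_succ_iff, Set.mem_image]

lemma downset_zero (x : G.L 0) : {z : G.V | z ⋖ G.mk' 0 x} = ∅ := by
  ext z
  simp only [Set.mem_ofPred_eq, covBy_iff, not_up_zero, Set.mem_empty_iff_false]

lemma degree (r : ℕ) (h0 : ∀ x : G.L 0, {y | G.E 0 x y}.ncard = r)
    (h1 : ∀ n (x : G.L (n + 1)), {y | G.E (n + 1) x y}.ncard = {z | G.E n z x}.ncard + r)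
    (a : G.V) : {z : G.V | a ⋖ z}.Finite ∧
      {z : G.V | a ⋖ z}.ncard = {z : G.V | z ⋖ a}.ncard + r := by
  obtain ⟨n, x⟩ := a
  change {z : G.V | G.mk' n x ⋖ z}.Finite ∧
      {z : G.V | G.mk' n x ⋖ z}.ncard = {z : G.V | z ⋖ G.mk' n x}.ncard + r
  rw [upset_eq]
  have := G.fin (n + 1)
  refine ⟨(Set.toFinite _).image _, ?_⟩
  rw [Set.ncard_image_of_injective _ (mk'_inj _)]
  cases n with
  | zero => rw [downset_zero, h0]; simp
  | succ n => rw [downset_eq, Set.ncard_image_of_injective _ (mk'_inj _), h1]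

lemma common (h2 : ∀ n (x y : G.L (n + 1)), x ≠ y →
      {z | G.E n z x ∧ G.E n z y}.ncard = {w | G.E (n + 1) x w ∧ G.E (n + 1) y w}.ncard)
    (a b : G.V) (hab : a ≠ b) :
    {z : G.V | z ⋖ a ∧ z ⋖ b}.ncard = {z : G.V | a ⋖ z ∧ b ⋖ z}.ncard := by
  by_cases hr : G.rk a = G.rk b
  · obtain ⟨n, x⟩ := a
    obtain ⟨k, y⟩ := b
    have hk : n = k := hr
    subst hk
    have hxy : x ≠ y := fun h => hab (by rw [h])
    cases n with
    | zero => exact absurd ((G.uniq x).trans (G.uniq y).symm) hxy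
    | succ n =>
      change {z : G.V | z ⋖ G.mk' (n + 1) x ∧ z ⋖ G.mk' (n + 1) y}.ncard =
        {z : G.V | G.mk' (n + 1) x ⋖ z ∧ G.mk' (n + 1) y ⋖ z}.ncard
      rw [Set.ofPred_and, Set.ofPred_and, downset_eq, downset_eq, upset_eq, upset_eq,
        ← Set.image_inter (mk'_inj _), ← Set.image_inter (mk'_inj _),
        Set.ncard_image_of_injective _ (mk'_inj _), Set.ncard_image_of_injective _ (mk'_inj _)]
      exact h2 n x y hxy
  · have e1 : {z : G.V | z ⋖ a ∧ z ⋖ b} = ∅ := by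
      ext z
      simp only [Set.mem_ofPred_eq, covBy_iff, Set.mem_empty_iff_false, iff_false]
      rintro ⟨h1, h2⟩
      have := up_rk h1
      have := up_rk h2
      omega
    have e2 : {z : G.V | a ⋖ z ∧ b ⋖ z} = ∅ := by
      ext z
      simp only [Set.mem_ofPred_eq, covBy_iff, Set.mem_empty_iff_false, iff_false]
      rintro ⟨h1, h2⟩
      have := up_rk h1
      have := up_rk h2
      omega
    rw [e1, e2]

end GG

end Pool.Agent.P.MP_987dc0_co
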