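import Pool.Agent.P.MP_987dc0_co.Defs

set_option autoImplicit false

namespace Pool.Agent.P.MP_987dc0_co

open Finset

/-- The number of lower covers. -/
noncomputable def dg {P : Type} [PartialOrder P] (x : P) : ℕ := {z : P | z ⋖ x}.ncard

namespace IsDiff

variable {r : ℕ} {P : Type} [PartialOrder P] [OrderBot P] {ρ : P → ℕ}

lemma dn_finite (h : IsDiff r P ρ) (x : P) : {z : P | z ⋖ x}.Finite := by
  refine (h.fin (ρ x - 1)).subset ?_
  intro z hz
  have := h.cov z x hz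
  simp only [Set.mem_ofPred_eq]
  omega

/-- The elements of rank `n`. -/
noncomputable def lev (h : IsDiff r P ρ) (n : ℕ) : Finset P := (h.fin n).toFinset

/-- The lower covers. -/
noncomputable def dn (h : IsDiff r P ρ) (x : P) : Finset P := (h.dn_finite x).toFinset

/-- The upper covers. -/
noncomputable def up (h : IsDiff r P ρ) (x : P) : Finset P := (h.deg x).1.toFinset

@[simp] lemma mem_lev (h : IsDiff r P ρ) {n : ℕ} {x : P} : x ∈ h.lev n ↔ ρ x = n := by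
  simp [lev]

@[simp] lemma mem_dn (h : IsDiff r P ρ) {x z : P} : z ∈ h.dn x ↔ z ⋖ x := by
  simp [dn]

@[simp] lemma mem_up (h : IsDiff r P ρ) {x z : P} : z ∈ h.up x ↔ x ⋖ z := by
  simp [up]

lemma card_lev (h : IsDiff r P ρ) (n : ℕ) : (h.lev n).card = {x : P | ρ x = n}.ncard :=
  (Set.ncard_eq_toFinset_card _ (h.fin n)).symm

lemma card_dn (h : IsDiff r P ρ) (x : P) : (h.dn x).card = dg x :=
  (Set.ncard_eq_toFinset_card _ (h.dn_finite x)).symm

lemma card_up (h : IsDiff r P ρ) (x : P) : (h.up x).card = dg x + r := by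
  rw [dg, ← (h.deg x).2]
  exact (Set.ncard_eq_toFinset_card _ (h.deg x).1).symm

lemma sum_swap (h : IsDiff r P ρ) (n : ℕ) (f : P → P → ℝ) :
    ∑ x ∈ h.lev n, ∑ w ∈ h.up x, f w x = ∑ w ∈ h.lev (n + 1), ∑ x ∈ h.dn w, f w x := by
  apply Finset.sum_comm'
  intro x w
  simp only [mem_lev, mem_up, mem_dn]
  constructor
  · rintro ⟨h1, h2⟩
    have := h.cov x w h2
    exact ⟨h2, by omega⟩
  · rintro ⟨h1, h2⟩
    have := h.cov x w h1
    exact ⟨by omega, h1⟩

open Classical in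
lemma sum_up_eq (h : IsDiff r P ρ) (x : P) :
    ∑ w ∈ h.up x, dg w = ∑ y ∈ h.lev (ρ x), ((h.up x).filter (fun w => y ⋖ w)).card := by
  simp only [Finset.card_filter]
  rw [Finset.sum_comm]
  refine Finset.sum_congr rfl fun w hw => ?_
  rw [← Finset.card_filter, ← h.card_dn w]
  congr 1
  ext y
  simp only [mem_dn, Finset.mem_filter, mem_lev]
  rw [mem_up] at hw
  constructor
  · intro hy
    have h1 := h.cov x w hw
    have h2 := h.cov y w hy
    exact ⟨by omega, hy⟩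
  · exact fun hy => hy.2

open Classical in
lemma sum_dn_eq (h : IsDiff r P ρ) (x : P) :
    ∑ z ∈ h.dn x, (dg z + r) = ∑ y ∈ h.lev (ρ x), ((h.dn x).filter (fun z => z ⋖ y)).card := by
  simp only [Finset.card_filter]
  rw [Finset.sum_comm]
  refine Finset.sum_congr rfl fun z hz => ?_
  rw [← Finset.card_filter, ← h.card_up z]
  congr 1
  ext y
  simp only [mem_up, Finset.mem_filter, mem_lev]
  rw [mem_dn] at hz
  constructor
  · intro hy
    have h1 := h.cov z x hz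
    have h2 := h.cov z y hy
    exact ⟨by omega, hy⟩
  · exact fun hy => hy.2

/-- The local identity. -/
lemma local_id (h : IsDiff r P ρ) (x : P) :
    ∑ w ∈ h.up x, dg w = ∑ z ∈ h.dn x, (dg z + r) + r := by
  classical
  rw [sum_up_eq, sum_dn_eq]
  have hx : x ∈ h.lev (ρ x) := by simp
  rw [← Finset.add_sum_erase _ _ hx, ← Finset.add_sum_erase _ _ hx]
  have e1 : (h.up x).filter (fun w => x ⋖ w) = h.up x :=
    Finset.filter_true_of_mem fun w hw => h.mem_up.1 hw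
  have e2 : (h.dn x).filter (fun z => z ⋖ x) = h.dn x :=
    Finset.filter_true_of_mem fun w hw => h.mem_dn.1 hw
  rw [e1, e2, card_up, card_dn]
  have e3 : ∑ y ∈ (h.lev (ρ x)).erase x, ((h.up x).filter (fun w => y ⋖ w)).card =
      ∑ y ∈ (h.lev (ρ x)).erase x, ((h.dn x).filter (fun z => z ⋖ y)).card := by
    refine Finset.sum_congr rfl fun y hy => ?_
    have hne : x ≠ y := (Finset.ne_of_mem_erase hy).symm
    have := h.com x y hne
    rw [← Set.ncard_coe_finset, ← Set.ncard_coe_finset]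
    have a1 : (((h.up x).filter (fun w => y ⋖ w) : Finset P) : Set P) =
        {z : P | x ⋖ z ∧ y ⋖ z} := by
      ext z; simp
    have a2 : (((h.dn x).filter (fun z => z ⋖ y) : Finset P) : Set P) =
        {z : P | z ⋖ x ∧ z ⋖ y} := by
      ext z; simp
    rw [a1, a2, this]
  rw [e3]
  omega

lemma local_real (h : IsDiff r P ρ) (x : P) :
    ∑ w ∈ h.up x, ((dg w : ℝ) - dg x) = r - ∑ z ∈ h.dn x, ((dg x : ℝ) - dg z) := by
  have := congrArg (fun k : ℕ => (k : ℝ)) (h.local_id x)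
  simp only [Nat.cast_add, Nat.cast_sum] at this
  simp only [Finset.sum_sub_distrib, Finset.sum_const, card_up, card_dn, nsmul_eq_mul,
    Finset.sum_add_distrib] at this ⊢
  push_cast
  rw [this]
  ring

lemma exists_cov [LocallyFiniteOrder P] (x : P) (hx : x ≠ ⊥) : ∃ z, z ⋖ x := by
  obtain ⟨z, _, hz⟩ := exists_le_covBy_of_lt (bot_lt_iff_ne_bot.2 hx)
  exact ⟨z, hz⟩

lemma eq_bot [LocallyFiniteOrder P] (h : IsDiff r P ρ) {x : P} (hx : ρ x = 0) : x = ⊥ := by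
  by_contra hne
  obtain ⟨z, hz⟩ := exists_cov x hne
  have := h.cov z x hz
  omega

lemma dg_pos [LocallyFiniteOrder P] (h : IsDiff r P ρ) {x : P} (hx : ρ x ≠ 0) : 0 < dg x := by
  have hne : x ≠ ⊥ := by
    rintro rfl
    exact hx h.bot
  obtain ⟨z, hz⟩ := exists_cov x hne
  rw [← h.card_dn, Finset.card_pos]
  exact ⟨z, h.mem_dn.2 hz⟩

lemma dn_bot (h : IsDiff r P ρ) : h.dn ⊥ = ∅ := by
  ext z
  simp only [mem_dn, Finset.notMem_empty, iff_false]
  intro hz
  exact not_lt_bot hz.lt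

lemma dg_bot (h : IsDiff r P ρ) : dg (⊥ : P) = 0 := by
  rw [← h.card_dn, dn_bot, Finset.card_empty]

lemma lev_zero [LocallyFiniteOrder P] (h : IsDiff r P ρ) : h.lev 0 = {⊥} := by
  ext x
  simp only [mem_lev, Finset.mem_singleton]
  exact ⟨h.eq_bot, fun hx => hx ▸ h.bot⟩

lemma dn_atom [LocallyFiniteOrder P] (h : IsDiff r P ρ) {x : P} (hx : ρ x = 1) :
    h.dn x = {⊥} := by
  have h1 : h.dn x ⊆ {⊥} := by
    intro z hz
    rw [mem_dn] at hz
    have := h.cov z x hz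
    rw [Finset.mem_singleton]
    exact h.eq_bot (by omega)
  refine Finset.eq_of_subset_of_card_le h1 ?_
  rw [card_dn, Finset.card_singleton]
  exact h.dg_pos (by omega)

lemma dg_atom [LocallyFiniteOrder P] (h : IsDiff r P ρ) {x : P} (hx : ρ x = 1) : dg x = 1 := by
  rw [← h.card_dn, h.dn_atom hx, Finset.card_singleton]

lemma lev_one [LocallyFiniteOrder P] (h : IsDiff r P ρ) : h.lev 1 = h.up ⊥ := by
  ext x
  simp only [mem_lev, mem_up]
  constructor
  · intro hx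
    rw [← h.mem_dn, h.dn_atom hx]
    simp
  · intro hx
    rw [h.cov _ _ hx, h.bot]

lemma card_lev_one [LocallyFiniteOrder P] (h : IsDiff r P ρ) : (h.lev 1).card = r := by
  rw [lev_one, card_up, h.dg_bot, zero_add]

lemma dg_two [LocallyFiniteOrder P] (h : IsDiff r P ρ) {x : P} (hx : ρ x = 2) : dg x ≤ r := by
  rw [← h.card_dn]
  refine le_trans (Finset.card_le_card fun z hz => ?_) h.card_lev_one.le
  rw [mem_dn] at hz
  have := h.cov z x hz
  rw [mem_lev]
  omega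

/-- The potential of rank `n` for the edge shares `σ`. -/
noncomputable def pot (h : IsDiff r P ρ) (n : ℕ) (σ : ℕ → ℕ → ℝ) : ℝ :=
  ∑ x ∈ h.lev n, ∑ z ∈ h.dn x, σ (dg x) (dg z)

lemma step_elt (h : IsDiff r P ρ) (σ σ' : ℕ → ℕ → ℝ) (x : P) (hx : 0 < dg x) (θ l : ℝ)
    (hup : ∀ w, x ⋖ w → θ + l * ((dg w : ℝ) - dg x) ≤ σ' (dg w) (dg x))
    (hdn : ∀ z, z ⋖ x → (dg x : ℝ) * σ (dg x) (dg z) ≤
      ((dg x : ℝ) + r) * θ + r * l - dg x * (l * ((dg x : ℝ) - dg z))) :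
    ∑ z ∈ h.dn x, σ (dg x) (dg z) ≤ ∑ w ∈ h.up x, σ' (dg w) (dg x) := by
  have h1 : ∑ w ∈ h.up x, (θ + l * ((dg w : ℝ) - dg x)) ≤ ∑ w ∈ h.up x, σ' (dg w) (dg x) :=
    Finset.sum_le_sum fun w hw => hup w (h.mem_up.1 hw)
  have h2 : ∑ z ∈ h.dn x, (dg x : ℝ) * σ (dg x) (dg z) ≤
      ∑ z ∈ h.dn x, (((dg x : ℝ) + r) * θ + r * l - dg x * (l * ((dg x : ℝ) - dg z))) :=
    Finset.sum_le_sum fun z hz => hdn z (h.mem_dn.1 hz)
  rw [Finset.sum_add_distrib, ← Finset.mul_sum, local_real, Finset.sum_const, card_up,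
    nsmul_eq_mul] at h1
  rw [← Finset.mul_sum, Finset.sum_sub_distrib, ← Finset.mul_sum, ← Finset.mul_sum,
    Finset.sum_const, card_dn, nsmul_eq_mul] at h2
  have hj : (0 : ℝ) < dg x := by exact_mod_cast hx
  refine le_trans ?_ h1
  refine le_of_mul_le_mul_left (h2.trans (le_of_eq ?_)) hj
  push_cast
  ring

lemma pot_step [LocallyFiniteOrder P] (h : IsDiff r P ρ) (n : ℕ) (hn : n ≠ 0)
    (σ σ' : ℕ → ℕ → ℝ)
    (H : ∀ x, ρ x = n → ∃ θ l : ℝ,
      (∀ w, x ⋖ w → θ + l * ((dg w : ℝ) - dg x) ≤ σ' (dg w) (dg x)) ∧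
      (∀ z, z ⋖ x → (dg x : ℝ) * σ (dg x) (dg z) ≤
        ((dg x : ℝ) + r) * θ + r * l - dg x * (l * ((dg x : ℝ) - dg z)))) :
    h.pot n σ ≤ h.pot (n + 1) σ' := by
  unfold pot
  rw [← h.sum_swap n (fun w x => σ' (dg w) (dg x))]
  refine Finset.sum_le_sum fun x hx => ?_
  rw [mem_lev] at hx
  obtain ⟨θ, l, h1, h2⟩ := H x hx
  exact h.step_elt σ σ' x (h.dg_pos (by omega)) θ l h1 h2

lemma pot_top (h : IsDiff r P ρ) (n : ℕ) (σ : ℕ → ℕ → ℝ)
    (H : ∀ j i : ℕ, 0 < j → (j : ℝ) * σ j i ≤ 1) :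
    h.pot n σ ≤ ({x : P | ρ x = n}.ncard : ℝ) := by
  rw [← card_lev, pot, Finset.card_eq_sum_ones]
  push_cast
  refine Finset.sum_le_sum fun x _ => ?_
  rcases Nat.eq_zero_or_pos (dg x) with h0 | h0
  · have : h.dn x = ∅ := by rw [← Finset.card_eq_zero, card_dn, h0]
    rw [this]
    simp
  · have hj : (0 : ℝ) < dg x := by exact_mod_cast h0
    refine le_of_mul_le_mul_left ?_ hj
    rw [Finset.mul_sum]
    refine (Finset.sum_le_sum fun z _ => H (dg x) (dg z) h0).trans ?_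
    rw [Finset.sum_const, card_dn]
    simp

lemma pot_one [LocallyFiniteOrder P] (h : IsDiff r P ρ) (σ : ℕ → ℕ → ℝ) :
    h.pot 1 σ = r * σ 1 0 := by
  unfold pot
  rw [Finset.sum_congr rfl (g := fun _ => σ 1 0)]
  · rw [Finset.sum_const, card_lev_one, nsmul_eq_mul]
  · intro x hx
    rw [mem_lev] at hx
    rw [h.dn_atom hx, Finset.sum_singleton, h.dg_atom hx, h.dg_bot]

end IsDiff

end Pool.Agent.P.MP_987dc0_co
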