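import Pool.Agent.P.MP_987dc0_co.Local
import Pool.Agent.P.MP_987dc0_co.Example

set_option autoImplicit false

namespace Pool.Agent.P.MP_987dc0_co

open Finset PowerSeries

lemma ncard_split {P Q : Type} (x : P) (y : Q) (A : Set P) (B : Set Q) (hA : A.Finite) (hB : B.Finite)
    (hx : x ∉ A) :
    ((fun a => (a, y)) '' A ∪ (fun b => (x, b)) '' B).ncard = A.ncard + B.ncard := by
  rw [Set.ncard_union_eq ?_ (hA.image _) (hB.image _),
    Set.ncard_image_of_injective _ (Prod.mk_left_injective y),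
    Set.ncard_image_of_injective _ (Prod.mk_right_injective x)]
  rw [Set.disjoint_left]
  rintro _ ⟨a, ha, rfl⟩ ⟨b, _, h⟩
  simp only [Prod.mk.injEq] at h
  exact hx (h.1 ▸ ha)

section

variable {P Q : Type} [PartialOrder P] [PartialOrder Q]

lemma up_prod (x : P) (y : Q) : {z : P × Q | (x, y) ⋖ z} =
    (fun a => (a, y)) '' {a | x ⋖ a} ∪ (fun b => (x, b)) '' {b | y ⋖ b} := by
  ext ⟨a, b⟩
  simp only [Set.mem_ofPred_eq, Prod.mk_covBy_mk_iff, Set.mem_union, Set.mem_image, Prod.mk.injEq]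
  constructor
  · rintro (⟨h1, h2⟩ | ⟨h1, h2⟩)
    · exact Or.inl ⟨a, h1, rfl, h2⟩
    · exact Or.inr ⟨b, h1, h2, rfl⟩
  · rintro (⟨c, h1, rfl, h2⟩ | ⟨c, h1, h2, rfl⟩)
    · exact Or.inl ⟨h1, h2⟩
    · exact Or.inr ⟨h1, h2⟩

lemma dn_prod (x : P) (y : Q) : {z : P × Q | z ⋖ (x, y)} =
    (fun a => (a, y)) '' {a | a ⋖ x} ∪ (fun b => (x, b)) '' {b | b ⋖ y} := by
  ext ⟨a, b⟩
  simp only [Set.mem_ofPred_eq, Prod.mk_covBy_mk_iff, Set.mem_union, Set.mem_image, Prod.mk.injEq]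
  constructor
  · rintro (⟨h1, h2⟩ | ⟨h1, h2⟩)
    · exact Or.inl ⟨a, h1, rfl, h2.symm⟩
    · exact Or.inr ⟨b, h1, h2.symm, rfl⟩
  · rintro (⟨c, h1, rfl, h2⟩ | ⟨c, h1, h2, rfl⟩)
    · exact Or.inl ⟨h1, h2.symm⟩
    · exact Or.inr ⟨h1, h2.symm⟩

lemma com_prod
    (hP : ∀ x y : P, x ≠ y → {z : P | z ⋖ x ∧ z ⋖ y}.ncard = {z : P | x ⋖ z ∧ y ⋖ z}.ncard)
    (hQ : ∀ x y : Q, x ≠ y → {z : Q | z ⋖ x ∧ z ⋖ y}.ncard = {z : Q | x ⋖ z ∧ y ⋖ z}.ncard)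
    (u v : P × Q) (huv : u ≠ v) :
    {z : P × Q | z ⋖ u ∧ z ⋖ v}.ncard = {z : P × Q | u ⋖ z ∧ v ⋖ z}.ncard := by
  obtain ⟨x, y⟩ := u
  obtain ⟨x', y'⟩ := v
  by_cases hx : x = x'
  · subst hx
    have hy : y ≠ y' := fun h => huv (by rw [h])
    have e1 : {z : P × Q | z ⋖ (x, y) ∧ z ⋖ (x, y')} =
        (fun b => (x, b)) '' {b | b ⋖ y ∧ b ⋖ y'} := by
      ext ⟨a, b⟩
      simp only [Set.mem_ofPred_eq, Prod.mk_covBy_mk_iff, Set.mem_image, Prod.mk.injEq]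
      constructor
      · rintro ⟨⟨h1, h2⟩ | ⟨h1, h2⟩, ⟨h3, h4⟩ | ⟨h3, h4⟩⟩
        · exact absurd (h2.symm.trans h4) hy
        · exact absurd h4 h1.ne
        · exact absurd h2 h3.ne
        · exact ⟨b, ⟨h1, h3⟩, h2.symm, rfl⟩
      · rintro ⟨c, ⟨h1, h2⟩, rfl, rfl⟩
        exact ⟨Or.inr ⟨h1, rfl⟩, Or.inr ⟨h2, rfl⟩⟩
    have e2 : {z : P × Q | (x, y) ⋖ z ∧ (x, y') ⋖ z} =
        (fun b => (x, b)) '' {b | y ⋖ b ∧ y' ⋖ b} := by
      ext ⟨a, b⟩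
      simp only [Set.mem_ofPred_eq, Prod.mk_covBy_mk_iff, Set.mem_image, Prod.mk.injEq]
      constructor
      · rintro ⟨⟨h1, h2⟩ | ⟨h1, h2⟩, ⟨h3, h4⟩ | ⟨h3, h4⟩⟩
        · exact absurd (h2.trans h4.symm) hy
        · exact absurd h4 h1.ne
        · exact absurd h2 h3.ne
        · exact ⟨b, ⟨h1, h3⟩, h2, rfl⟩
      · rintro ⟨c, ⟨h1, h2⟩, rfl, rfl⟩
        exact ⟨Or.inr ⟨h1, rfl⟩, Or.inr ⟨h2, rfl⟩⟩
    rw [e1, e2, Set.ncard_image_of_injective _ (Prod.mk_right_injective x),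
      Set.ncard_image_of_injective _ (Prod.mk_right_injective x), hQ y y' hy]
  by_cases hy : y = y'
  · subst hy
    have e1 : {z : P × Q | z ⋖ (x, y) ∧ z ⋖ (x', y)} =
        (fun a => (a, y)) '' {a | a ⋖ x ∧ a ⋖ x'} := by
      ext ⟨a, b⟩
      simp only [Set.mem_ofPred_eq, Prod.mk_covBy_mk_iff, Set.mem_image, Prod.mk.injEq]
      constructor
      · rintro ⟨⟨h1, h2⟩ | ⟨h1, h2⟩, ⟨h3, h4⟩ | ⟨h3, h4⟩⟩
        · exact ⟨a, ⟨h1, h3⟩, rfl, h2.symm⟩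
        · exact absurd h2 h3.ne
        · exact absurd h4 h1.ne
        · exact absurd (h2.symm.trans h4) hx
      · rintro ⟨c, ⟨h1, h2⟩, rfl, rfl⟩
        exact ⟨Or.inl ⟨h1, rfl⟩, Or.inl ⟨h2, rfl⟩⟩
    have e2 : {z : P × Q | (x, y) ⋖ z ∧ (x', y) ⋖ z} =
        (fun a => (a, y)) '' {a | x ⋖ a ∧ x' ⋖ a} := by
      ext ⟨a, b⟩
      simp only [Set.mem_ofPred_eq, Prod.mk_covBy_mk_iff, Set.mem_image, Prod.mk.injEq]
      constructor
      · rintro ⟨⟨h1, h2⟩ | ⟨h1, h2⟩, ⟨h3, h4⟩ | ⟨h3, h4⟩⟩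
        · exact ⟨a, ⟨h1, h3⟩, rfl, h2⟩
        · exact absurd h2 h3.ne
        · exact absurd h4 h1.ne
        · exact absurd (h2.trans h4.symm) hx
      · rintro ⟨c, ⟨h1, h2⟩, rfl, rfl⟩
        exact ⟨Or.inl ⟨h1, rfl⟩, Or.inl ⟨h2, rfl⟩⟩
    rw [e1, e2, Set.ncard_image_of_injective _ (Prod.mk_left_injective y),
      Set.ncard_image_of_injective _ (Prod.mk_left_injective y), hP x x' hx]
  have e1 : {z : P × Q | z ⋖ (x, y) ∧ z ⋖ (x', y')} =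
      {z | (z = (x', y) ∧ x' ⋖ x ∧ y ⋖ y') ∨ (z = (x, y') ∧ x ⋖ x' ∧ y' ⋖ y)} := by
    ext ⟨a, b⟩
    simp only [Set.mem_ofPred_eq, Prod.mk_covBy_mk_iff, Prod.mk.injEq]
    constructor
    · rintro ⟨⟨h1, h2⟩ | ⟨h1, h2⟩, ⟨h3, h4⟩ | ⟨h3, h4⟩⟩
      · exact absurd (h2.symm.trans h4) hy
      · exact Or.inl ⟨⟨h4, h2⟩, h4 ▸ h1, h2 ▸ h3⟩
      · exact Or.inr ⟨⟨h2, h4⟩, h2 ▸ h3, h4 ▸ h1⟩
      · exact absurd (h2.symm.trans h4) hx
    · rintro (⟨⟨rfl, rfl⟩, h1, h2⟩ | ⟨⟨rfl, rfl⟩, h1, h2⟩)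
      · exact ⟨Or.inl ⟨h1, rfl⟩, Or.inr ⟨h2, rfl⟩⟩
      · exact ⟨Or.inr ⟨h2, rfl⟩, Or.inl ⟨h1, rfl⟩⟩
  have e2 : {z : P × Q | (x, y) ⋖ z ∧ (x', y') ⋖ z} =
      {z | (z = (x, y') ∧ x' ⋖ x ∧ y ⋖ y') ∨ (z = (x', y) ∧ x ⋖ x' ∧ y' ⋖ y)} := by
    ext ⟨a, b⟩
    simp only [Set.mem_ofPred_eq, Prod.mk_covBy_mk_iff, Prod.mk.injEq]
    constructor
    · rintro ⟨⟨h1, h2⟩ | ⟨h1, h2⟩, ⟨h3, h4⟩ | ⟨h3, h4⟩⟩
      · exact absurd (h2.trans h4.symm) hy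
      · exact Or.inr ⟨⟨h4.symm, h2.symm⟩, h4 ▸ h1, h2 ▸ h3⟩
      · exact Or.inl ⟨⟨h2.symm, h4.symm⟩, h2 ▸ h3, h4 ▸ h1⟩
      · exact absurd (h2.trans h4.symm) hx
    · rintro (⟨⟨rfl, rfl⟩, h1, h2⟩ | ⟨⟨rfl, rfl⟩, h1, h2⟩)
      · exact ⟨Or.inr ⟨h2, rfl⟩, Or.inl ⟨h1, rfl⟩⟩
      · exact ⟨Or.inl ⟨h1, rfl⟩, Or.inr ⟨h2, rfl⟩⟩
  rw [e1, e2]
  by_cases hA : x' ⋖ x ∧ y ⋖ y'
  · have hB : ¬ (x ⋖ x' ∧ y' ⋖ y) := fun hB => lt_asymm hA.1.lt hB.1.lt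
    simp [hA, hB]
  · by_cases hB : x ⋖ x' ∧ y' ⋖ y
    · simp [hA, hB]
    · simp [hA, hB]

end

lemma lev_prod {P Q : Type} (ρ : P → ℕ) (τ : Q → ℕ) (n : ℕ) :
    {z : P × Q | ρ z.1 + τ z.2 = n} =
      ⋃ p ∈ HasAntidiagonal.antidiagonal n, {x | ρ x = p.1} ×ˢ {y | τ y = p.2} := by
  ext ⟨a, b⟩
  simp only [Set.mem_ofPred_eq, Set.mem_iUnion, HasAntidiagonal.mem_antidiagonal, Set.mem_prod,
    exists_prop]
  constructor
  · intro h
    exact ⟨(ρ a, τ b), h, rfl, rfl⟩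
  · rintro ⟨p, h1, h2, h3⟩
    omega

lemma IsDiff.prod {r s : ℕ} {P Q : Type} [PartialOrder P] [OrderBot P] [PartialOrder Q]
    [OrderBot Q] {ρ : P → ℕ} {τ : Q → ℕ} (h : IsDiff r P ρ) (k : IsDiff s Q τ) :
    IsDiff (r + s) (P × Q) (fun z => ρ z.1 + τ z.2) where
  bot := by simp [h.bot, k.bot]
  cov := by
    rintro ⟨a, b⟩ ⟨c, d⟩ hc
    rcases Prod.mk_covBy_mk_iff.1 hc with ⟨h1, rfl⟩ | ⟨h1, rfl⟩
    · have := h.cov _ _ h1
      simp only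
      omega
    · have := k.cov _ _ h1
      simp only
      omega
  fin := fun n => by
    rw [lev_prod]
    exact Set.Finite.biUnion (Finset.finite_toSet _) fun p _ => (h.fin _).prod (k.fin _)
  deg := by
    rintro ⟨x, y⟩
    rw [up_prod, dn_prod]
    refine ⟨((h.deg x).1.image _).union ((k.deg y).1.image _), ?_⟩
    rw [ncard_split x y _ _ (h.deg x).1 (k.deg y).1 (fun h => h.ne rfl),
      ncard_split x y _ _ (h.dn_finite x) (k.dn_finite y) (fun h => h.ne rfl), (h.deg x).2,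
      (k.deg y).2]
    omega
  com := com_prod h.com k.com

lemma ncard_lev_prod {r s : ℕ} {P Q : Type} [PartialOrder P] [OrderBot P] [PartialOrder Q]
    [OrderBot Q] {ρ : P → ℕ} {τ : Q → ℕ} (h : IsDiff r P ρ) (k : IsDiff s Q τ) (n : ℕ) :
    {z : P × Q | ρ z.1 + τ z.2 = n}.ncard =
      ∑ p ∈ HasAntidiagonal.antidiagonal n, {x | ρ x = p.1}.ncard * {y | τ y = p.2}.ncard := by
  classical
  have e : {z : P × Q | ρ z.1 + τ z.2 = n} =
      ((HasAntidiagonal.antidiagonal n).biUnion fun p => h.lev p.1 ×ˢ k.lev p.2 : Finset _) := by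
    rw [lev_prod]
    ext ⟨a, b⟩
    simp
  rw [e, Set.ncard_coe_finset, Finset.card_biUnion]
  · refine Finset.sum_congr rfl fun p _ => ?_
    rw [Finset.card_product, h.card_lev, k.card_lev]
  · intro p _ q _ hpq
    rw [Function.onFun, Finset.disjoint_left]
    rintro ⟨a, b⟩ h1 h2
    simp only [Finset.mem_product, IsDiff.mem_lev] at h1 h2
    exact hpq (Prod.ext (h1.1.symm.trans h2.1) (h1.2.symm.trans h2.2))

/-- The series `f` is the rank generating function of some `r`-differential poset. -/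
def Rlz (r : ℕ) (f : ℝ⟦X⟧) : Prop :=
  ∃ (P : Type) (_ : PartialOrder P) (_ : OrderBot P) (_ : LocallyFiniteOrder P) (ρ : P → ℕ),
    IsDiff r P ρ ∧ ∀ n, coeff n f = ({x : P | ρ x = n}.ncard : ℝ)

lemma Rlz.mul {r s : ℕ} {f g : ℝ⟦X⟧} (h : Rlz r f) (k : Rlz s g) : Rlz (r + s) (f * g) := by
  classical
  obtain ⟨P, _, _, _, ρ, h1, h2⟩ := h
  obtain ⟨Q, _, _, _, τ, k1, k2⟩ := k
  refine ⟨P × Q, inferInstance, inferInstance, inferInstance, _, h1.prod k1, fun n => ?_⟩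
  rw [ncard_lev_prod h1 k1, coeff_mul]
  push_cast
  exact Finset.sum_congr rfl fun p _ => by rw [h2, k2]

lemma Rlz.one : Rlz 0 1 := by
  have hc : ∀ x y : Unit, ¬ x ⋖ y := fun x y h => h.ne (Subsingleton.elim _ _)
  refine ⟨Unit, inferInstance, inferInstance, Fintype.toLocallyFiniteOrder, fun _ => 0,
    ⟨rfl, fun x y h => absurd h (hc x y), fun _ => Set.toFinite _, fun x => ?_,
      fun x y h => absurd (Subsingleton.elim _ _) h⟩, fun n => ?_⟩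
  · simp
  · rw [coeff_one]
    split_ifs with h
    · simp [h]
    · simp [Ne.symm h]

lemma Rlz.pow {r : ℕ} {f : ℝ⟦X⟧} (h : Rlz r f) (n : ℕ) : Rlz (r * n) (f ^ n) := by
  induction n with
  | zero => simpa using Rlz.one
  | succ n ih => rw [pow_succ, Nat.mul_succ]; exact ih.mul h

lemma Rlz.of_GG (G : GG) (r : ℕ) (h0 : ∀ x : G.L 0, {y | G.E 0 x y}.ncard = r)
    (h1 : ∀ n (x : G.L (n + 1)), {y | G.E (n + 1) x y}.ncard = {z | G.E n z x}.ncard + r)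
    (h2 : ∀ n (x y : G.L (n + 1)), x ≠ y →
      {z | G.E n z x ∧ G.E n z y}.ncard = {w | G.E (n + 1) x w ∧ G.E (n + 1) y w}.ncard) :
    Rlz r (PowerSeries.mk fun n => (Nat.card (G.L n) : ℝ)) := by
  refine ⟨G.V, inferInstance, inferInstance, inferInstance, G.rk,
    ⟨rfl, fun x y h => GG.up_rk (GG.covBy_iff.1 h), GG.level_finite, GG.degree r h0 h1,
      GG.common h2⟩, fun n => ?_⟩
  rw [coeff_mk, GG.level_ncard]

lemma rlz_three : ∃ f : ℝ⟦X⟧, Rlz 3 f ∧ coeff 0 f = 1 ∧ coeff 1 f = 3 ∧ coeff 2 f = 9 ∧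
    coeff 3 f = 22 ∧ coeff 4 f = 50 := by
  refine ⟨_, Rlz.of_GG G 3 deg0 deg com, ?_, ?_, ?_, ?_, ?_⟩ <;> rw [coeff_mk]
  · exact_mod_cast Nat.card_fin 1
  · exact_mod_cast Nat.card_fin 3
  · exact_mod_cast Nat.card_fin 9
  · exact_mod_cast Nat.card_fin 22
  · exact_mod_cast Nat.card_fin 50

/-- The levels of the Young–Fibonacci lattice. -/
def FL : ℕ → Type
  | 0 => Unit
  | 1 => Unit
  | (n + 2) => FL n ⊕ FL (n + 1)

/-- The edges of the Young–Fibonacci lattice. -/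
def FE : (n : ℕ) → FL n → FL (n + 1) → Prop
  | 0 => fun _ _ => True
  | (n + 1) => fun (y : FL (n + 1)) (w : FL n ⊕ FL (n + 1)) =>
      Sum.elim (fun x => FE n x y) (fun p => y = p) w

lemma FL_finite : ∀ n, Finite (FL n)
  | 0 => inferInstanceAs (Finite Unit)
  | 1 => inferInstanceAs (Finite Unit)
  | (n + 2) =>
    have := FL_finite n
    have := FL_finite (n + 1)
    inferInstanceAs (Finite (FL n ⊕ FL (n + 1)))

lemma F_up : ∀ n (x : FL n), ∃ y, FE n x y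
  | 0 => fun _ => ⟨(), trivial⟩
  | (_ + 1) => fun x => ⟨Sum.inr x, rfl⟩

lemma F_down : ∀ n (y : FL (n + 1)), ∃ x, FE n x y
  | 0 => fun _ => ⟨(), trivial⟩
  | (n + 1) => fun w => by
    rcases (w : FL n ⊕ FL (n + 1)) with x | p
    · exact F_up n x
    · exact ⟨p, rfl⟩

/-- The Young–Fibonacci lattice as a graded graph. -/
def FG : GG where
  L := FL
  E := FE
  fin := FL_finite
  o := ()
  uniq := fun _ => rfl
  down := F_down

lemma F_deg {A B : Type} [Finite A] [Finite B] (R : A → B → Prop) (y : B) :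
    {w : A ⊕ B | Sum.elim (fun x => R x y) (fun p => y = p) w}.ncard = {z | R z y}.ncard + 1 := by
  have e : {w : A ⊕ B | Sum.elim (fun x => R x y) (fun p => y = p) w} =
      insert (Sum.inr y) (Sum.inl '' {z | R z y}) := by
    ext w
    rcases w with x | p
    · simp
    · simp [eq_comm]
  rw [e, Set.ncard_insert_of_notMem (by simp), Set.ncard_image_of_injective _ Sum.inl_injective]

lemma F_com {A B : Type} (R : A → B → Prop) (x y : B) (hxy : x ≠ y) :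
    {z | R z x ∧ R z y}.ncard =
      {w : A ⊕ B | Sum.elim (fun z => R z x) (fun p => x = p) w ∧
        Sum.elim (fun z => R z y) (fun p => y = p) w}.ncard := by
  have e : {w : A ⊕ B | Sum.elim (fun z => R z x) (fun p => x = p) w ∧
        Sum.elim (fun z => R z y) (fun p => y = p) w} = Sum.inl '' {z | R z x ∧ R z y} := by
    ext w
    rcases w with z | p
    · simp
    · simp only [Set.mem_ofPred_eq, Sum.elim_inr, Set.mem_image, reduceCtorEq, and_false,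
        exists_false, iff_false, not_and]
      rintro rfl h
      exact hxy h.symm
  rw [e, Set.ncard_image_of_injective _ Sum.inl_injective]

lemma FL_card (n : ℕ) : Nat.card (FL (n + 2)) = Nat.card (FL n) + Nat.card (FL (n + 1)) := by
  have := FL_finite n
  have := FL_finite (n + 1)
  exact Nat.card_sum

lemma rlz_one : ∃ f : ℝ⟦X⟧, Rlz 1 f ∧ coeff 0 f = 1 ∧ coeff 1 f = 1 ∧ coeff 2 f = 2 ∧
    coeff 3 f = 3 ∧ coeff 4 f = 5 := by
  have c0 : Nat.card (FL 0) = 1 := Nat.card_unique (α := Unit)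
  have c1 : Nat.card (FL 1) = 1 := Nat.card_unique (α := Unit)
  have c2 : Nat.card (FL 2) = 2 := by rw [FL_card 0, c0, c1]
  have c3 : Nat.card (FL 3) = 3 := by rw [FL_card 1, c1, c2]
  have c4 : Nat.card (FL 4) = 5 := by rw [FL_card 2, c2, c3]
  refine ⟨_, Rlz.of_GG FG 1 (fun x => ?_) (fun n x => ?_) (fun n x y hxy => ?_),
    ?_, ?_, ?_, ?_, ?_⟩
  · change {y : Unit | True}.ncard = 1
    simp
  · have := FL_finite n
    have := FL_finite (n + 1)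
    exact F_deg (FE n) x
  · exact F_com (FE n) x y hxy
  all_goals rw [coeff_mk]
  · exact_mod_cast c0
  · exact_mod_cast c1
  · exact_mod_cast c2
  · exact_mod_cast c3
  · exact_mod_cast c4

end Pool.Agent.P.MP_987dc0_co
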