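import Pool.Agent.P.MP_987dc0_co.Dual

set_option autoImplicit false

namespace Pool.Agent.P.MP_987dc0_co

open Finset Filter Topology PowerSeries

/-- Truncated binomial sums. -/
noncomputable def Bt (S : ℝ⟦X⟧) (K : ℕ) : ℝ⟦X⟧ := ∑ k ∈ range K, Ring.choose S k * X ^ k

lemma trunc_dvd {A : Type} [CommRing A] (a b : ℕ → A) (x : A) (K : ℕ) :
    x ^ K ∣ (∑ k ∈ range K, (∑ p ∈ HasAntidiagonal.antidiagonal k, a p.1 * b p.2) * x ^ k) -
      (∑ i ∈ range K, a i * x ^ i) * (∑ j ∈ range K, b j * x ^ j) := by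
  have h : (Polynomial.X : Polynomial A) ^ K ∣
      trunc K (mk a * mk b) - trunc K (mk a) * trunc K (mk b) := by
    rw [Polynomial.X_pow_dvd_iff]
    intro d hd
    rw [Polynomial.coeff_sub, coeff_trunc, if_pos hd, coeff_mul_eq_coeff_trunc_mul_trunc _ _ hd,
      ← Polynomial.coe_mul, Polynomial.coeff_coe, sub_self]
  have h2 := map_dvd (Polynomial.eval₂RingHom (RingHom.id A) x) h
  simp only [map_pow, map_sub, map_mul, Polynomial.coe_eval₂RingHom, Polynomial.eval₂_X,
    eval₂_trunc_eq_sum_range, RingHom.id_apply, coeff_mul, coeff_mk] at h2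
  exact h2

lemma Bt_mul (R S : ℝ⟦X⟧) (K : ℕ) : X ^ K ∣ Bt (R + S) K - Bt R K * Bt S K := by
  have := trunc_dvd (fun k => Ring.choose R k) (fun k => Ring.choose S k) (X : ℝ⟦X⟧) K
  unfold Bt
  simp only [Ring.add_choose_eq _ (Commute.all R S)]
  exact this

/-- The generating function of the first dual variable. -/
noncomputable def As (r : ℝ) (j : ℕ) : ℝ⟦X⟧ := mk fun m => da r m j

/-- The generating function of the sum of the dual variables. -/
noncomputable def Cs (r : ℝ) (j : ℕ) : ℝ⟦X⟧ := mk fun m => da r m j + dm r m j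

/-- The series `(1 + X) / (1 - X)`. -/
noncomputable def uu : ℝ⟦X⟧ := (1 + X) * PowerSeries.mk 1

lemma As_eq (r : ℝ) (j : ℕ) (hj : 0 < j) :
    (j : ℝ⟦X⟧) * As r j = 1 + (j : ℝ⟦X⟧) * (X * As r j) + C r * (X * Cs r (j + 1)) := by
  have hj' : (j : ℝ) ≠ 0 := by exact_mod_cast hj.ne'
  rw [← map_natCast (C (R := ℝ)) j]
  ext m
  cases m with
  | zero => simp [As, da_zero, hj']
  | succ m =>
    simp only [coeff_C_mul, map_add, coeff_succ_X_mul, As, Cs, coeff_mk, da_succ, coeff_one,
      Nat.succ_ne_zero, if_false]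
    field_simp
    ring

lemma Cs_eq (r : ℝ) (j : ℕ) : Cs r j = As r j + X * As r j - X * Cs r (j + 1) := by
  ext m
  cases m with
  | zero => simp [As, Cs, dm_zero]
  | succ m =>
    simp only [map_add, map_sub, coeff_succ_X_mul, As, Cs, coeff_mk, dm_succ]
    ring

lemma Cs_rec (r : ℝ) (j : ℕ) (hj : 0 < j) :
    (j : ℝ⟦X⟧) * Cs r j = uu + X * (C r * uu - (j : ℝ⟦X⟧)) * Cs r (j + 1) := by
  have h1 := As_eq r j hj
  have h2 := Cs_eq r j
  have h3 := mk_one_mul_one_sub_eq_one ℝ
  unfold uu
  linear_combination (j : ℝ⟦X⟧) * h2 + (1 + X) * PowerSeries.mk 1 * h1 - (1 + X) * (j : ℝ⟦X⟧) * As r j * h3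

/-- The generating function of the bound of the linear program. -/
noncomputable def Phi (r : ℝ) : ℝ⟦X⟧ := 1 + C r * (X * Cs r 1)

lemma Phi_eq (r : ℝ) (K : ℕ) :
    Phi r = Bt (C r * uu) (K + 1) +
      C r * X ^ (K + 1) * Ring.choose (C r * uu - 1) K * Cs r (K + 1) := by
  induction K with
  | zero => simp [Phi, Bt, mul_assoc]
  | succ K ih =>
    have f1 := Ring.choose_add_smul_choose (C r * uu - 1) K 1
    have f2 := Ring.choose_smul_choose (C r * uu - 1) (Nat.le_add_right K 1)
    simp only [Nat.choose_one_right, Nat.cast_one, sub_add_cancel, Ring.choose_one_right,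
      nsmul_eq_mul, Nat.choose_succ_self_right, Nat.add_sub_cancel_left] at f1 f2
    have h := Cs_rec r (K + 1) (by omega)
    have hK : ((K + 1 : ℕ) : ℝ⟦X⟧) ≠ 0 := by
      rw [← map_natCast (C (R := ℝ)) (K + 1)]
      intro h0
      have := congrArg constantCoeff h0
      simp only [constantCoeff_C, map_zero] at this
      exact absurd this (by positivity)
    rw [ih, Bt, Bt, Finset.sum_range_succ _ (K + 1), add_assoc]
    congr 1
    apply mul_left_cancel₀ hK
    push_cast at f1 f2 h ⊢
    linear_combination C r * X ^ (K + 1) * Ring.choose (C r * uu - 1) K * h -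
      X ^ (K + 1) * f1 - C r * X ^ (K + 1 + 1) * Cs r (K + 1 + 1) * f2

lemma Phi_dvd (r : ℝ) (K : ℕ) : X ^ (K + 1) ∣ Phi r - Bt (C r * uu) (K + 1) := by
  rw [Phi_eq r K]
  exact ⟨C r * Ring.choose (C r * uu - 1) K * Cs r (K + 1), by ring⟩

lemma Phi_add (r s : ℝ) : Phi (r + s) = Phi r * Phi s := by
  ext n
  have h1 := Phi_dvd (r + s) n
  have h2 := Phi_dvd r n
  have h3 := Phi_dvd s n
  have h4 := Bt_mul (C r * uu) (C s * uu) (n + 1)
  rw [map_add, add_mul] at h1
  have h5 : X ^ (n + 1) ∣ Phi (r + s) - Phi r * Phi s := by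
    have e : Phi (r + s) - Phi r * Phi s =
        (Phi (r + s) - Bt (C r * uu + C s * uu) (n + 1)) +
        (Bt (C r * uu + C s * uu) (n + 1) - Bt (C r * uu) (n + 1) * Bt (C s * uu) (n + 1)) -
        (Phi r - Bt (C r * uu) (n + 1)) * Phi s -
        Bt (C r * uu) (n + 1) * (Phi s - Bt (C s * uu) (n + 1)) := by ring
    rw [e]
    exact ((h1.add h4).sub (h2.mul_right _)).sub (h3.mul_left _)
  have := X_pow_dvd_iff.1 h5 n (by omega)
  rwa [map_sub, sub_eq_zero] at this

lemma Phi_nat (r : ℕ) : Phi r = Phi 1 ^ r := by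
  induction r with
  | zero => simp [Phi]
  | succ r ih => rw [Nat.cast_succ, Phi_add, ih, pow_succ]

lemma Phi_coeff (r : ℝ) (N : ℕ) : coeff (N + 1) (Phi r) = r * (da r N 1 + dm r N 1) := by
  simp [Phi, coeff_succ_X_mul, Cs, coeff_one]

lemma Phi_zero (r : ℝ) : coeff 0 (Phi r) = 1 := by
  simp [Phi]

lemma Phi_one : coeff 1 (Phi 1) = 1 ∧ coeff 2 (Phi 1) = 2 ∧ coeff 3 (Phi 1) = 3 ∧
    coeff 4 (Phi 1) = 14 / 3 := by
  refine ⟨?_, ?_, ?_, ?_⟩ <;> rw [Phi_coeff] <;>
    norm_num [da_succ, dm_succ, da_zero, dm_zero]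

/-- `H` is the logarithmic derivative of the series `f` with constant term one. -/
def LD (f H : ℝ⟦X⟧) : Prop := coeff 0 f = 1 ∧ d⁄dX ℝ f = H * f

lemma LD.mul {f g H G : ℝ⟦X⟧} (h1 : LD f H) (h2 : LD g G) : LD (f * g) (H + G) := by
  refine ⟨by simp [coeff_mul, h1.1, h2.1], ?_⟩
  rw [Derivation.leibniz, h1.2, h2.2]
  simp only [smul_eq_mul]
  ring

lemma LD.pow {f H : ℝ⟦X⟧} (h : LD f H) (n : ℕ) : LD (f ^ n) (C (n : ℝ) * H) := by
  induction n with
  | zero => exact ⟨by simp, by simp⟩
  | succ n ih =>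
    have := ih.mul h
    rw [pow_succ, Nat.cast_succ, map_add, map_one, add_mul, one_mul]
    exact this

lemma LD.rec' {f H : ℝ⟦X⟧} (h : LD f H) (n : ℕ) :
    coeff (n + 1) f * (n + 1) = ∑ p ∈ HasAntidiagonal.antidiagonal n, coeff p.1 H * coeff p.2 f := by
  rw [← coeff_derivative, h.2, coeff_mul]

lemma LD.four {f H : ℝ⟦X⟧} (h : LD f H) :
    coeff 1 f = coeff 0 H ∧
    coeff 2 f * 2 = coeff 0 H * coeff 1 f + coeff 1 H ∧
    coeff 3 f * 3 = coeff 0 H * coeff 2 f + coeff 1 H * coeff 1 f + coeff 2 H ∧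
    coeff 4 f * 4 = coeff 0 H * coeff 3 f + coeff 1 H * coeff 2 f + coeff 2 H * coeff 1 f +
      coeff 3 H := by
  have h0 := h.rec' 0
  have h1 := h.rec' 1
  have h2 := h.rec' 2
  have h3 := h.rec' 3
  simp only [Finset.Nat.antidiagonal_succ, Finset.Nat.antidiagonal_zero, Finset.sum_cons,
    Finset.sum_map, Finset.sum_singleton, Function.Embedding.prodMap, Function.Embedding.coeFn_mk,
    Prod.map, Function.Embedding.refl_apply, h.1] at h0 h1 h2 h3
  norm_num at h0 h1 h2 h3
  refine ⟨?_, ?_, ?_, ?_⟩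
  · simpa using h0
  · simp only [coeff_zero_eq_constantCoeff]; linarith
  · simp only [coeff_zero_eq_constantCoeff]; linarith
  · simp only [coeff_zero_eq_constantCoeff]; linarith

lemma exists_LD (f : ℝ⟦X⟧) (h : coeff 0 f = 1) : ∃ H, LD f H := by
  refine ⟨d⁄dX ℝ f * f⁻¹, h, ?_⟩
  have : constantCoeff f ≠ 0 := by
    rw [← coeff_zero_eq_constantCoeff_apply, h]; exact one_ne_zero
  rw [mul_assoc, PowerSeries.inv_mul_cancel _ this, mul_one]

lemma pow_lim (i : ℕ) : Tendsto (fun r : ℕ => (1 / (r : ℝ)) ^ i) atTop (𝓝 (0 ^ i)) :=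
  inv_lim.pow i

lemma lead_lim (f H : ℕ → ℝ⟦X⟧) (hl : ℕ → ℝ) (h : ∀ r, LD (f r) (H r))
    (hH : ∀ i, Tendsto (fun r : ℕ => coeff i (H r) / r) atTop (𝓝 (hl i))) (h0 : hl 0 = 1)
    (n : ℕ) :
    Tendsto (fun r : ℕ => coeff n (f r) / (r : ℝ) ^ n) atTop (𝓝 (1 / (n.factorial : ℝ))) := by
  induction n using Nat.strong_induction_on with
  | _ n ih =>
    cases n with
    | zero => simp [(h _).1]
    | succ n =>
      have key : Tendsto (fun r : ℕ => (∑ p ∈ HasAntidiagonal.antidiagonal n, coeff p.1 (H r) / r *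
          (coeff p.2 (f r) / (r : ℝ) ^ p.2) * (1 / (r : ℝ)) ^ p.1) / ((n : ℝ) + 1)) atTop
          (𝓝 ((∑ p ∈ HasAntidiagonal.antidiagonal n, hl p.1 * (1 / (p.2.factorial : ℝ)) * 0 ^ p.1) / (n + 1))) := by
        refine Tendsto.div_const (tendsto_finsetSum _ fun p hp => ?_) _
        have := HasAntidiagonal.mem_antidiagonal.1 hp
        exact ((hH p.1).mul (ih p.2 (by omega))).mul (pow_lim p.1)
      have e : (∑ p ∈ HasAntidiagonal.antidiagonal n, hl p.1 * (1 / (p.2.factorial : ℝ)) * 0 ^ p.1) / (n + 1) =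
          1 / ((n + 1).factorial : ℝ) := by
        rw [Finset.sum_eq_single (0, n)]
        · rw [Nat.factorial_succ, h0]
          push_cast
          field_simp
        · intro p hp hne
          have := HasAntidiagonal.mem_antidiagonal.1 hp
          have : p.1 ≠ 0 := fun h1 => hne (Prod.ext h1 (by simp only; omega))
          simp [this]
        · simp
      rw [e] at key
      refine key.congr' ?_
      filter_upwards [ev_pos] with r hr
      have h1 := (h r).rec' n
      have hn : (n : ℝ) + 1 ≠ 0 := by positivity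
      rw [eq_div_of_mul_eq hn h1, div_right_comm, Finset.sum_div (a := (r : ℝ) ^ (n + 1))]
      congr 1
      refine Finset.sum_congr rfl fun p hp => ?_
      have := HasAntidiagonal.mem_antidiagonal.1 hp
      rw [← this, one_div, inv_pow]
      field_simp
      ring

/-- The limiting third-order coefficient. -/
noncomputable def DD (c : ℝ) (n : ℕ) : ℝ := if n < 4 then 0 else c / ((n - 4).factorial : ℝ)

lemma diff_lim (f g H G : ℕ → ℝ⟦X⟧) (hl gl : ℕ → ℝ) (hf : ∀ r, LD (f r) (H r))
    (hg : ∀ r, LD (g r) (G r))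
    (hH : ∀ i, Tendsto (fun r : ℕ => coeff i (H r) / r) atTop (𝓝 (hl i)))
    (hG : ∀ i, Tendsto (fun r : ℕ => coeff i (G r) / r) atTop (𝓝 (gl i)))
    (h0 : hl 0 = 1) (g0 : gl 0 = 1) (hlow : ∀ r i, i < 3 → coeff i (H r) = coeff i (G r))
    (c : ℝ) (hc : hl 3 - gl 3 = 4 * c) (n : ℕ) :
    Tendsto (fun r : ℕ => (coeff n (f r) - coeff n (g r)) * (r : ℝ) ^ 3 / (r : ℝ) ^ n) atTop
      (𝓝 (DD c n)) := by
  induction n using Nat.strong_induction_on with
  | _ n ih =>
    cases n with
    | zero => simp [(hf _).1, (hg _).1, DD]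
    | succ n =>
      have key : Tendsto (fun r : ℕ => (∑ p ∈ HasAntidiagonal.antidiagonal n, (coeff p.1 (H r) / r *
          ((coeff p.2 (f r) - coeff p.2 (g r)) * (r : ℝ) ^ 3 / (r : ℝ) ^ p.2) *
            (1 / (r : ℝ)) ^ p.1 +
          if p.1 < 3 then 0 else (coeff p.1 (H r) / r - coeff p.1 (G r) / r) *
            (coeff p.2 (g r) / (r : ℝ) ^ p.2) * (1 / (r : ℝ)) ^ (p.1 - 3))) / ((n : ℝ) + 1)) atTop
          (𝓝 ((∑ p ∈ HasAntidiagonal.antidiagonal n, (hl p.1 * DD c p.2 * 0 ^ p.1 +
            if p.1 < 3 then 0 else (hl p.1 - gl p.1) * (1 / (p.2.factorial : ℝ)) *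
              0 ^ (p.1 - 3))) / ((n : ℝ) + 1))) := by
        refine Tendsto.div_const (tendsto_finsetSum _ fun p hp => ?_) _
        have := HasAntidiagonal.mem_antidiagonal.1 hp
        refine (((hH p.1).mul (ih p.2 (by omega))).mul (pow_lim p.1)).add ?_
        split_ifs
        · exact tendsto_const_nhds
        · exact (((hH p.1).sub (hG p.1)).mul (lead_lim g G gl hg hG g0 p.2)).mul (pow_lim _)
      have e : (∑ p ∈ HasAntidiagonal.antidiagonal n, (hl p.1 * DD c p.2 * 0 ^ p.1 +
            if p.1 < 3 then 0 else (hl p.1 - gl p.1) * (1 / (p.2.factorial : ℝ)) *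
              0 ^ (p.1 - 3))) / ((n : ℝ) + 1) = DD c (n + 1) := by
        rw [Finset.sum_add_distrib, Finset.sum_eq_single (0, n)]
        · rcases lt_or_ge n 3 with h3 | h3
          · rw [Finset.sum_eq_zero]
            · simp [DD, (by omega : n < 4), (by omega : n + 1 < 4)]
            · intro p hp
              have := HasAntidiagonal.mem_antidiagonal.1 hp
              rw [if_pos (by omega)]
          · rw [Finset.sum_eq_single (3, n - 3)]
            · obtain ⟨k, rfl⟩ : ∃ k, n = k + 3 := ⟨n - 3, by omega⟩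
              have hk : (k : ℝ) + 3 + 1 ≠ 0 := by positivity
              simp only [h0, hc, DD, lt_self_iff_false, if_false, Nat.add_sub_cancel,
                Nat.sub_self, pow_zero, mul_one, one_mul,
                if_neg (by omega : ¬ k + 3 + 1 < 4), (by omega : k + 3 + 1 - 4 = k)]
              cases k with
              | zero => norm_num
              | succ k =>
                rw [if_neg (by omega), (by omega : k + 1 + 3 - 4 = k), Nat.factorial_succ]
                push_cast
                field_simp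
                ring
            · intro p hp hne
              have := HasAntidiagonal.mem_antidiagonal.1 hp
              split_ifs with h4
              · rfl
              · have : p.1 - 3 ≠ 0 := fun h1 => hne (Prod.ext (by simp only; omega)
                  (by simp only; omega))
                simp [this]
            · intro h4
              exact absurd (HasAntidiagonal.mem_antidiagonal.2 (by simp only; omega)) h4
        · intro p hp hne
          have := HasAntidiagonal.mem_antidiagonal.1 hp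
          have : p.1 ≠ 0 := fun h1 => hne (Prod.ext h1 (by simp only; omega))
          simp [this]
        · simp
      rw [e] at key
      refine key.congr' ?_
      filter_upwards [ev_pos] with r hr
      have h1 := (hf r).rec' n
      have h2 := (hg r).rec' n
      have hn : (n : ℝ) + 1 ≠ 0 := by positivity
      rw [eq_div_of_mul_eq hn h1, eq_div_of_mul_eq hn h2, ← sub_div, ← Finset.sum_sub_distrib,
        div_mul_eq_mul_div, div_right_comm, Finset.sum_mul,
        Finset.sum_div (a := (r : ℝ) ^ (n + 1))]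
      congr 1
      refine Finset.sum_congr rfl fun p hp => ?_
      have := HasAntidiagonal.mem_antidiagonal.1 hp
      rw [← this]
      split_ifs with h3
      · rw [hlow r p.1 h3, one_div, inv_pow]
        field_simp
        ring
      · obtain ⟨k, hk⟩ : ∃ k, p.1 = k + 3 := ⟨p.1 - 3, by omega⟩
        rw [hk, Nat.add_sub_cancel, one_div, inv_pow, inv_pow]
        field_simp
        ring

end Pool.Agent.P.MP_987dc0_co
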