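import Pool.Agent.P.MP_987dc0_co.Exact
import Pool.Agent.P.MP_987dc0_co.Series
import Pool.Agent.P.MP_987dc0_co.Prod

set_option autoImplicit false

namespace Pool.Agent.P.MP_987dc0_co

open Finset Filter Topology PowerSeries

lemma coeff_pow_tuple (f : ℝ⟦X⟧) (r n : ℕ) :
    coeff n (f ^ r) = ∑ x ∈ Finset.Nat.antidiagonalTuple r n, ∏ i, coeff (x i) f := by
  have e : f ^ r = ∏ _i : Fin r, f := by simp
  rw [e, coeff_prod]
  refine Finset.sum_nbij' (fun l => (l : Fin r → ℕ)) (fun x => Finsupp.equivFunOnFinite.symm x)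
    ?_ ?_ ?_ ?_ ?_
  · intro l hl
    rw [Finset.mem_finsuppAntidiag] at hl
    exact Finset.Nat.mem_antidiagonalTuple.2 hl.1
  · intro x hx
    rw [Finset.mem_finsuppAntidiag]
    exact ⟨Finset.Nat.mem_antidiagonalTuple.1 hx, Finset.subset_univ _⟩
  · intro l _
    simp
  · intro x _
    simp
  · intro l _
    rfl

/-- The generating function of partitions. -/
noncomputable def Par : ℝ⟦X⟧ := PowerSeries.mk fun n => (Fintype.card (Nat.Partition n) : ℝ)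

lemma Y_eq (r n : ℕ) : (Y r n : ℝ) = coeff n (Par ^ r) := by
  rw [coeff_pow_tuple, Y]
  push_cast
  simp [Par]

/-- The partitions of size at most four. -/
def smallP : Finset (Multiset ℕ) :=
  {0, {1}, {2}, {1, 1}, {3}, {2, 1}, {1, 1, 1}, {4}, {3, 1}, {2, 2}, {2, 1, 1}, {1, 1, 1, 1}}

lemma mem_smallP (l : List ℕ) (h : ∀ i ∈ l, 0 < i) (hs : l.sum ≤ 4) :
    (l : Multiset ℕ) ∈ smallP := by
  rcases l with _ | ⟨a, _ | ⟨b, _ | ⟨c, _ | ⟨d, _ | ⟨e, l⟩⟩⟩⟩⟩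
  · decide
  · have ha := h a (by simp)
    simp only [List.sum_cons, List.sum_nil] at hs
    have : a ≤ 4 := by omega
    interval_cases a <;> decide
  · have ha := h a (by simp)
    have hb := h b (by simp)
    simp only [List.sum_cons, List.sum_nil] at hs
    have : a ≤ 3 := by omega
    have : b ≤ 3 := by omega
    interval_cases a <;> interval_cases b <;> first | decide | omega
  · have ha := h a (by simp)
    have hb := h b (by simp)
    have hc := h c (by simp)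
    simp only [List.sum_cons, List.sum_nil] at hs
    have : a ≤ 2 := by omega
    have : b ≤ 2 := by omega
    have : c ≤ 2 := by omega
    interval_cases a <;> interval_cases b <;> interval_cases c <;> first | decide | omega
  · have ha := h a (by simp)
    have hb := h b (by simp)
    have hc := h c (by simp)
    have hd := h d (by simp)
    simp only [List.sum_cons, List.sum_nil] at hs
    obtain rfl : a = 1 := by omega
    obtain rfl : b = 1 := by omega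
    obtain rfl : c = 1 := by omega
    obtain rfl : d = 1 := by omega
    decide
  · have ha := h a (by simp)
    have hb := h b (by simp)
    have hc := h c (by simp)
    have hd := h d (by simp)
    have he := h e (by simp)
    simp only [List.sum_cons] at hs
    omega

lemma card_le_small (n : ℕ) (hn : n ≤ 4) :
    Fintype.card (Nat.Partition n) ≤ (smallP.filter fun s => s.sum = n).card := by
  rw [← Finset.card_univ]
  refine Finset.card_le_card_of_injOn (fun p => p.parts) (fun p _ => ?_)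
    (fun p _ q _ h => Nat.Partition.ext h)
  simp only [Finset.coe_filter, Set.mem_ofPred_eq]
  refine ⟨?_, p.parts_sum⟩
  have h1 := mem_smallP p.parts.toList (fun i hi => p.parts_pos (Multiset.mem_toList.1 hi))
    (by rw [Multiset.sum_toList, p.parts_sum]; exact hn)
  rwa [Multiset.coe_toList] at h1

lemma Par_coeff : coeff 0 Par = 1 ∧ coeff 1 Par = 1 ∧ coeff 2 Par = 2 ∧ coeff 3 Par = 3 ∧
    coeff 4 Par = 5 := by
  have h0 : Fintype.card (Nat.Partition 0) = 1 :=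
    le_antisymm ((card_le_small 0 (by norm_num)).trans (by decide)) (le_card_small 0)
  have h1 : Fintype.card (Nat.Partition 1) = 1 :=
    le_antisymm ((card_le_small 1 (by norm_num)).trans (by decide)) (le_card_small 1)
  have h2 : Fintype.card (Nat.Partition 2) = 2 :=
    le_antisymm ((card_le_small 2 (by norm_num)).trans (by decide)) (le_card_small 2)
  have h3 : Fintype.card (Nat.Partition 3) = 3 :=
    le_antisymm ((card_le_small 3 (by norm_num)).trans (by decide)) (le_card_small 3)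
  have h4 : Fintype.card (Nat.Partition 4) = 5 :=
    le_antisymm ((card_le_small 4 (by norm_num)).trans (by decide)) (le_card_small 4)
  simp only [Par, coeff_mk, h0, h1, h2, h3, h4]
  norm_num

lemma LD_coeffs {f H : ℝ⟦X⟧} (h : LD f H) {a b c d : ℝ} (h1 : coeff 1 f = a) (h2 : coeff 2 f = b)
    (h3 : coeff 3 f = c) (h4 : coeff 4 f = d) :
    coeff 0 H = a ∧ coeff 1 H = 2 * b - a ^ 2 ∧ coeff 2 H = 3 * c - 3 * a * b + a ^ 3 ∧
      coeff 3 H = 4 * d - 4 * a * c - 2 * b ^ 2 + 4 * a ^ 2 * b - a ^ 4 := by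
  obtain ⟨e1, e2, e3, e4⟩ := h.four
  rw [h1] at e1 e2 e3 e4
  rw [h2] at e2 e3 e4
  rw [h3] at e3 e4
  rw [h4] at e4
  rw [← e1] at e2 e3 e4
  have k1 : coeff 1 H = 2 * b - a ^ 2 := by linarith
  rw [k1] at e3 e4
  have k2 : coeff 2 H = 3 * c - 3 * a * b + a ^ 3 := by linarith
  rw [k2] at e4
  exact ⟨e1.symm, k1, k2, by linarith⟩

lemma LD_vals {f H : ℝ⟦X⟧} (h : LD f H) {r e : ℝ} (h0 : coeff 0 H = r) (h1 : coeff 1 H = 3 * r)
    (h2 : coeff 2 H = 4 * r) (h3 : coeff 3 H = 7 * r - 4 * e) :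
    coeff 1 f = r ∧ coeff 2 f = r * (r + 3) / 2 ∧ coeff 3 f = r * (r + 1) * (r + 8) / 6 ∧
      coeff 4 f = r * (r + 1) * (r + 3) * (r + 14) / 24 - e := by
  obtain ⟨e1, e2, e3, e4⟩ := h.four
  rw [h0] at e1 e2 e3 e4
  rw [h1] at e2 e3 e4
  rw [h2] at e3 e4
  rw [h3] at e4
  rw [e1] at e2 e3 e4
  have k2 : coeff 2 f = r * (r + 3) / 2 := by linarith
  rw [k2] at e3 e4
  have k3 : coeff 3 f = r * (r + 1) * (r + 8) / 6 := by linarith
  rw [k3] at e4
  exact ⟨e1, k2, k3, by linarith⟩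

lemma exists_HP : ∃ H, LD Par H ∧ coeff 0 H = 1 ∧ coeff 1 H = 3 ∧ coeff 2 H = 4 ∧
    coeff 3 H = 7 := by
  obtain ⟨p0, p1, p2, p3, p4⟩ := Par_coeff
  obtain ⟨H, h⟩ := exists_LD Par p0
  obtain ⟨k0, k1, k2, k3⟩ := LD_coeffs h p1 p2 p3 p4
  exact ⟨H, h, k0, by linarith, by linarith, by linarith⟩

lemma exists_HL : ∃ H, LD (Phi 1) H ∧ coeff 0 H = 1 ∧ coeff 1 H = 3 ∧ coeff 2 H = 4 ∧
    coeff 3 H = 17 / 3 := by
  obtain ⟨p1, p2, p3, p4⟩ := Phi_one
  obtain ⟨H, h⟩ := exists_LD (Phi 1) (Phi_zero 1)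
  obtain ⟨k0, k1, k2, k3⟩ := LD_coeffs h p1 p2 p3 p4
  exact ⟨H, h, k0, by linarith, by linarith, by linarith⟩

lemma third_lim : Tendsto (fun r : ℕ => ((r / 3 : ℕ) : ℝ) / r) atTop (𝓝 (1 / 3)) ∧
    Tendsto (fun r : ℕ => ((r % 3 : ℕ) : ℝ) / r) atTop (𝓝 0) := by
  have h2 : Tendsto (fun r : ℕ => ((r % 3 : ℕ) : ℝ) / r) atTop (𝓝 0) := by
    have h3 := inv_lim.const_mul 3
    rw [mul_zero] at h3
    refine squeeze_zero (fun r => by positivity) (fun r => ?_) h3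
    have : ((r % 3 : ℕ) : ℝ) ≤ 3 := by exact_mod_cast (Nat.mod_lt r (by norm_num)).le
    rw [mul_one_div]
    gcongr
  refine ⟨?_, h2⟩
  have h4 := (h2.const_sub 1).div_const 3
  rw [sub_zero] at h4
  refine h4.congr' ?_
  filter_upwards [ev_pos] with r hr
  have := congrArg (fun k : ℕ => (k : ℝ)) (Nat.div_add_mod r 3)
  simp only [Nat.cast_add, Nat.cast_mul, Nat.cast_ofNat] at this
  field_simp
  linarith

lemma exists_Q : ∃ (q G : ℕ → ℝ⟦X⟧) (gl : ℕ → ℝ), (∀ r, Rlz r (q r)) ∧ (∀ r, LD (q r) (G r)) ∧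
    (∀ i, Tendsto (fun r : ℕ => coeff i (G r) / r) atTop (𝓝 (gl i))) ∧ gl 0 = 1 ∧
    gl 3 = 17 / 3 ∧ ∀ r : ℕ, coeff 0 (G r) = r ∧ coeff 1 (G r) = 3 * r ∧
      coeff 2 (G r) = 4 * r ∧ coeff 3 (G r) = 7 * r - 4 * ((r / 3 : ℕ) : ℝ) := by
  obtain ⟨e, he, e0, e1, e2, e3, e4⟩ := rlz_three
  obtain ⟨f, hf, f0, f1, f2, f3, f4⟩ := rlz_one
  obtain ⟨HE, hE⟩ := exists_LD e e0
  obtain ⟨HF, hF⟩ := exists_LD f f0
  obtain ⟨a0, a1, a2, a3⟩ := LD_coeffs hE e1 e2 e3 e4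
  obtain ⟨b0, b1, b2, b3⟩ := LD_coeffs hF f1 f2 f3 f4
  refine ⟨fun r => e ^ (r / 3) * f ^ (r % 3),
    fun r => C ((r / 3 : ℕ) : ℝ) * HE + C ((r % 3 : ℕ) : ℝ) * HF, fun i => coeff i HE / 3,
    fun r => ?_, fun r => (hE.pow _).mul (hF.pow _), fun i => ?_, by simp only [a0]; norm_num,
    by simp only [a3]; norm_num, fun r => ?_⟩
  · have := (he.pow (r / 3)).mul (hf.pow (r % 3))
    rwa [one_mul, Nat.div_add_mod] at this
  · have := (third_lim.1.mul_const (coeff i HE)).add (third_lim.2.mul_const (coeff i HF))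
    rw [zero_mul, add_zero, one_div_mul_eq_div] at this
    refine this.congr fun r => ?_
    simp only [map_add, coeff_C_mul]
    ring
  · have := congrArg (fun k : ℕ => (k : ℝ)) (Nat.div_add_mod r 3)
    simp only [Nat.cast_add, Nat.cast_mul, Nat.cast_ofNat] at this
    simp only [map_add, coeff_C_mul, a0, a1, a2, a3, b0, b1, b2, b3]
    refine ⟨?_, ?_, ?_, ?_⟩ <;> linarith

lemma scale_lim (H : ℝ⟦X⟧) (i : ℕ) :
    Tendsto (fun r : ℕ => coeff i (C (r : ℝ) * H) / r) atTop (𝓝 (coeff i H)) := by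
  refine tendsto_const_nhds.congr' ?_
  filter_upwards [ev_pos] with r hr
  rw [coeff_C_mul]
  field_simp

lemma Y_vals (r : ℕ) : (Y r 0 : ℝ) = 1 ∧ (Y r 1 : ℝ) = r ∧ (Y r 2 : ℝ) = r * (r + 3) / 2 ∧
    (Y r 3 : ℝ) = r * (r + 1) * (r + 8) / 6 ∧
    (Y r 4 : ℝ) = r * (r + 1) * (r + 3) * (r + 14) / 24 := by
  obtain ⟨H, h, k0, k1, k2, k3⟩ := exists_HP
  have h' := h.pow r
  obtain ⟨v1, v2, v3, v4⟩ := LD_vals h' (r := r) (e := 0) (by rw [coeff_C_mul, k0]; ring)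
    (by rw [coeff_C_mul, k1]; ring) (by rw [coeff_C_mul, k2]; ring)
    (by rw [coeff_C_mul, k3]; ring)
  simp only [Y_eq]
  exact ⟨h'.1, v1, v2, v3, by rw [v4, sub_zero]⟩

/-- The minimum rank size. -/
noncomputable def mm (r n : ℕ) : ℕ := sInf (sizes r n)

lemma Rlz.mem {r : ℕ} {f : ℝ⟦X⟧} (h : Rlz r f) (n : ℕ) :
    ∃ k ∈ sizes r n, coeff n f = (k : ℝ) := by
  obtain ⟨P, i1, i2, i3, ρ, h1, h2⟩ := h
  exact ⟨_, ⟨P, i1, i2, i3, ρ, h1, rfl⟩, h2 n⟩

lemma Rlz.mm_le {r : ℕ} {f : ℝ⟦X⟧} (h : Rlz r f) (n : ℕ) : (mm r n : ℝ) ≤ coeff n f := by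
  obtain ⟨k, hk, e⟩ := h.mem n
  rw [e]
  exact_mod_cast Nat.sInf_le hk

lemma mm_isLeast (r n : ℕ) : IsLeast (sizes r n) (mm r n) := by
  obtain ⟨q, _, _, hq, _⟩ := exists_Q
  obtain ⟨k, hk, _⟩ := (hq r).mem n
  exact ⟨Nat.sInf_mem ⟨k, hk⟩, fun _ h => Nat.sInf_le h⟩

lemma mm_small (r n : ℕ) (hn : n ≤ 3) : mm r n = Y r n := by
  obtain ⟨q, G, _, hq, hG, _, _, _, hc⟩ := exists_Q
  obtain ⟨c0, c1, c2, c3⟩ := hc r
  obtain ⟨v1, v2, v3, _⟩ := LD_vals (hG r) c0 c1 c2 c3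
  obtain ⟨y0, y1, y2, y3, _⟩ := Y_vals r
  have u := (hq r).mm_le n
  obtain ⟨P, _, _, _, ρ, h, e⟩ := (mm_isLeast r n).1
  have : (mm r n : ℝ) = Y r n := by
    interval_cases n
    · rw [← e, h.ncard_zero, y0, Nat.cast_one]
    · rw [← e, h.ncard_one, y1]
    · have := h.lb_two
      rw [e] at this
      linarith
    · have := h.lb_three
      rw [e] at this
      linarith
  exact_mod_cast this

lemma mm_four (r : ℕ) (hr : 1 ≤ r) : mm r 4 + r / 3 = Y r 4 := by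
  obtain ⟨q, G, _, hq, hG, _, _, _, hc⟩ := exists_Q
  obtain ⟨c0, c1, c2, c3⟩ := hc r
  obtain ⟨_, _, _, v4⟩ := LD_vals (hG r) c0 c1 c2 c3
  obtain ⟨_, _, _, _, y4⟩ := Y_vals r
  have u := (hq r).mm_le 4
  obtain ⟨P, _, _, _, ρ, h, e⟩ := (mm_isLeast r 4).1
  have l := h.lb_four hr
  rw [e] at l
  have h1 : mm r 4 + r / 3 ≤ Y r 4 := by
    have : (mm r 4 : ℝ) + ((r / 3 : ℕ) : ℝ) ≤ Y r 4 := by linarith
    exact_mod_cast this
  have h2 : 3 * Y r 4 ≤ 3 * mm r 4 + r := by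
    have : 3 * (Y r 4 : ℝ) ≤ 3 * mm r 4 + r := by linarith
    exact_mod_cast this
  omega

lemma mm_lower (n : ℕ) : ∀ᶠ r : ℕ in atTop, coeff (n + 1) (Phi 1 ^ r) ≤ (mm r (n + 1) : ℝ) := by
  filter_upwards [ev_lower n] with r hr
  obtain ⟨P, _, _, _, ρ, h, e⟩ := (mm_isLeast r (n + 1)).1
  rw [← Phi_nat, Phi_coeff, ← e]
  exact hr P ρ h

lemma mm_asymp (n : ℕ) (hn : 4 ≤ n) :
    Tendsto (fun r : ℕ => ((Y r n : ℝ) - mm r n) / (r : ℝ) ^ (n - 3)) atTop
      (𝓝 (1 / (3 * ((n - 4).factorial : ℝ)))) := by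
  obtain ⟨q, G, gl, hq, hG, hl, g0, g3, hc⟩ := exists_Q
  obtain ⟨H, h, k0, k1, k2, k3⟩ := exists_HP
  obtain ⟨K, hK, l0, l1, l2, l3⟩ := exists_HL
  have t1 := diff_lim (fun r => Par ^ r) q (fun r => C (r : ℝ) * H) G (fun i => coeff i H) gl
    (fun r => h.pow r) hG (scale_lim H) hl k0 g0 (fun r i hi => by
      obtain ⟨c0, c1, c2, _⟩ := hc r
      rw [coeff_C_mul]
      interval_cases i
      · rw [k0, c0]; ring
      · rw [k1, c1]; ring
      · rw [k2, c2]; ring) (1 / 3) (by rw [k3, g3]; norm_num) n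
  have t2 := diff_lim (fun r => Par ^ r) (fun r => Phi 1 ^ r) (fun r => C (r : ℝ) * H)
    (fun r => C (r : ℝ) * K) (fun i => coeff i H) (fun i => coeff i K)
    (fun r => h.pow r) (fun r => hK.pow r) (scale_lim H) (scale_lim K) k0 l0 (fun r i hi => by
      rw [coeff_C_mul, coeff_C_mul]
      interval_cases i
      · rw [k0, l0]
      · rw [k1, l1]
      · rw [k2, l2]) (1 / 3) (by rw [k3, l3]; norm_num) n
  have e : DD (1 / 3) n = 1 / (3 * ((n - 4).factorial : ℝ)) := by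
    rw [DD, if_neg (by omega), div_div]
  rw [e] at t1 t2
  obtain ⟨k, rfl⟩ : ∃ k, n = k + 3 + 1 := ⟨n - 4, by omega⟩
  have e2 : ∀ (r : ℕ) (a : ℝ), (0 : ℝ) < r →
      a * (r : ℝ) ^ 3 / (r : ℝ) ^ (k + 3 + 1) = a / (r : ℝ) ^ (k + 3 + 1 - 3) := by
    intro r a hr
    rw [(by omega : k + 3 + 1 - 3 = k + 1)]
    field_simp
    ring
  refine tendsto_of_tendsto_of_tendsto_of_le_of_le' t1 t2 ?_ ?_
  · filter_upwards [ev_pos] with r hr
    rw [e2 r _ hr, Y_eq]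
    have := (hq r).mm_le (k + 3 + 1)
    gcongr
  · filter_upwards [ev_pos, mm_lower (k + 3)] with r hr h1
    rw [e2 r _ hr, Y_eq]
    gcongr

end Pool.Agent.P.MP_987dc0_co
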